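import Pool.Agent.MP_5082c5_lc.Sieve

/-!
# MP_5082c5_lc: many primes with exactly `n` binary digits
-/

namespace Pool.Agent.MP_5082c5_lc

open Finset Real

/-- The primes in `(N, 2N]`. -/
def bp (N : ℕ) : Finset ℕ := (Finset.Ioc N (2 * N)).filter Nat.Prime

theorem centralBinom_le (n : ℕ) (n_large : 2 < n) :
    Nat.centralBinom n ≤ (2 * n) ^ Nat.sqrt (2 * n) * 4 ^ (2 * n / 3) * (2 * n) ^ (bp n).card := by
  have n_pos : 0 < n := (Nat.zero_le _).trans_lt n_large
  have n2_pos : 1 ≤ 2 * n := mul_pos (zero_lt_two' ℕ) n_pos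
  let S := {p ∈ Finset.range (2 * n / 3 + 1) | Nat.Prime p}
  let f := fun x : ℕ => x ^ n.centralBinom.factorization x
  have hf : ∀ x, ¬ x.Prime → f x = 1 := by
    intro x hx
    show x ^ n.centralBinom.factorization x = 1
    rw [Nat.factorization_eq_zero_of_not_prime n.centralBinom hx, _root_.pow_zero]
  have h0 : Nat.centralBinom n = (∏ x ∈ S, f x) * ∏ x ∈ bp n, f x := by
    have hdisj : Disjoint S (bp n) := by
      rw [Finset.disjoint_left]
      intro x hx hx'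
      simp only [S, bp, mem_filter, mem_range, mem_Ioc] at hx hx'
      omega
    rw [← Finset.prod_union hdisj]
    refine (Eq.trans ?_ n.prod_pow_factorization_centralBinom).symm
    apply Finset.prod_subset
    · intro x hx
      simp only [S, bp, mem_union, mem_filter, mem_range, mem_Ioc] at hx ⊢
      omega
    · intro x hx h2x
      simp only [S, bp, mem_union, mem_filter, mem_range, mem_Ioc, not_or, not_and] at hx h2x
      by_cases hp : x.Prime
      · have h3 : ¬ x < 2 * n / 3 + 1 := fun h => h2x.1 h hp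
        have h4 : x ≤ n := by
          by_contra h5
          exact h2x.2 ⟨by omega, by omega⟩ hp
        show x ^ n.centralBinom.factorization x = 1
        rw [Nat.factorization_centralBinom_of_two_mul_self_lt_three_mul n_large h4 (by omega),
          Nat.pow_zero]
      · exact hf x hp
  rw [h0]
  apply Nat.mul_le_mul
  · rw [← Finset.prod_filter_mul_prod_filter_not S (· ≤ Nat.sqrt (2 * n))]
    apply mul_le_mul'
    · refine (Finset.prod_le_prod' fun p _ => (?_ : f p ≤ 2 * n)).trans ?_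
      · exact Nat.pow_factorization_choose_le (mul_pos two_pos n_pos)
      have : (Finset.Icc 1 (Nat.sqrt (2 * n))).card = Nat.sqrt (2 * n) := by
        rw [Nat.card_Icc, Nat.add_sub_cancel]
      rw [Finset.prod_const]
      refine pow_right_mono₀ n2_pos ((Finset.card_le_card fun x hx => ?_).trans this.le)
      obtain ⟨h1, h2⟩ := Finset.mem_filter.1 hx
      exact Finset.mem_Icc.mpr ⟨(Finset.mem_filter.1 h1).2.one_lt.le, h2⟩
    · refine le_trans ?_ (primorial_le_four_pow (2 * n / 3))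
      refine (Finset.prod_le_prod' fun p hp => (?_ : f p ≤ p)).trans ?_
      · obtain ⟨h1, h2⟩ := Finset.mem_filter.1 hp
        refine (pow_right_mono₀ (Finset.mem_filter.1 h1).2.one_lt.le ?_).trans (pow_one p).le
        exact Nat.factorization_choose_le_one (Nat.sqrt_lt'.mp <| not_le.1 h2)
      refine Finset.prod_le_prod_of_subset_of_one_le' (Finset.filter_subset _ _) ?_
      exact fun p hp _ => (Finset.mem_filter.1 hp).2.one_lt.le
  · refine (Finset.prod_le_prod' fun p _ => (?_ : f p ≤ 2 * n)).trans ?_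
    · exact Nat.pow_factorization_choose_le (mul_pos two_pos n_pos)
    · rw [Finset.prod_const]

/-- The primes with exactly `n` binary digits. -/
def np (n : ℕ) : Finset ℕ := (Finset.Ico (2 ^ (n - 1)) (2 ^ n)).filter Nat.Prime

theorem bp_card_le (n : ℕ) (hn : 3 ≤ n) : (bp (2 ^ (n - 1))).card ≤ (np n).card := by
  apply Finset.card_le_card
  intro p hp
  simp only [bp, np, mem_filter, mem_Ioc, mem_Ico] at hp ⊢
  have h1 : 2 * 2 ^ (n - 1) = 2 ^ n := by
    rw [← pow_succ', Nat.sub_add_cancel (by omega)]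
  rw [h1] at hp
  refine ⟨⟨hp.1.1.le, lt_of_le_of_ne hp.1.2 ?_⟩, hp.2⟩
  rintro rfl
  have := hp.2
  exact (Nat.Prime.not_prime_pow (by omega)) this

theorem np_lower (n : ℕ) (hn : 4 ≤ n) :
    (2 : ℝ) ^ n / 3 - n * ((2 : ℝ) ^ ((n : ℝ) / 2) + 1) ≤ n * (np n).card := by
  set N : ℕ := 2 ^ (n - 1) with hN
  have h2N : 2 * N = 2 ^ n := by
    rw [hN, ← pow_succ', Nat.sub_add_cancel (by omega)]
  have hN8 : 8 ≤ N := by
    calc 8 = 2 ^ 3 := by norm_num
      _ ≤ 2 ^ (n - 1) := Nat.pow_le_pow_right (by norm_num) (by omega)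
  have h1 := Nat.four_pow_lt_mul_centralBinom N (by omega)
  have h2 := centralBinom_le N (by omega)
  have h3 : 4 ^ N ≤ N * ((2 * N) ^ Nat.sqrt (2 * N) * 4 ^ (2 * N / 3) *
      (2 * N) ^ (bp N).card) := h1.le.trans (Nat.mul_le_mul_left _ h2)
  have h4 : 2 ^ (2 * N) ≤ 2 ^ (n + n * Nat.sqrt (2 * N) + 2 * (2 * N / 3) + n * (bp N).card) := by
    have e1 : (4 : ℕ) = 2 ^ 2 := by norm_num
    calc 2 ^ (2 * N) = 4 ^ N := by rw [e1, ← pow_mul]
      _ ≤ N * ((2 * N) ^ Nat.sqrt (2 * N) * 4 ^ (2 * N / 3) * (2 * N) ^ (bp N).card) := h3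
      _ ≤ 2 ^ n * ((2 ^ n) ^ Nat.sqrt (2 * N) * (2 ^ 2) ^ (2 * N / 3) *
            (2 ^ n) ^ (bp N).card) := by
          rw [← h2N, ← e1]
          exact Nat.mul_le_mul_right _ (by omega)
      _ = _ := by
          rw [← pow_mul, ← pow_mul, ← pow_mul, ← pow_add, ← pow_add, ← pow_add]
          congr 1
          ring
  have h5 : 2 * N ≤ n + n * Nat.sqrt (2 * N) + 2 * (2 * N / 3) + n * (bp N).card :=
    (Nat.pow_le_pow_iff_right (by norm_num)).1 h4
  have h6 : (bp N).card ≤ (np n).card := bp_card_le n (by omega)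
  have h7 : ((Nat.sqrt (2 * N) : ℕ) : ℝ) ≤ (2 : ℝ) ^ ((n : ℝ) / 2) := by
    have e2 : (2 : ℝ) ^ ((n : ℝ) / 2) = Real.sqrt ((2 * N : ℕ) : ℝ) := by
      rw [Real.sqrt_eq_rpow, h2N]
      push_cast
      rw [← Real.rpow_natCast, ← Real.rpow_mul (by norm_num)]
      congr 1
      ring
    rw [e2]
    exact Real.nat_sqrt_le_real_sqrt
  have h8 : ((2 * N / 3 : ℕ) : ℝ) ≤ (2 * N : ℕ) / 3 := Nat.cast_div_le
  have h9 : ((2 * N : ℕ) : ℝ) = (2 : ℝ) ^ n := by rw [h2N]; push_cast; rfl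
  have h10 : ((2 * N : ℕ) : ℝ) ≤ n + n * (Nat.sqrt (2 * N) : ℕ) + 2 * (2 * N / 3 : ℕ) +
      n * (bp N).card := by exact_mod_cast h5
  have h11 : ((bp N).card : ℝ) ≤ (np n).card := by exact_mod_cast h6
  have hn0 : (0 : ℝ) ≤ n := by positivity
  rw [h9] at h8 h10
  have h12 : (n : ℝ) * (Nat.sqrt (2 * N) : ℕ) ≤ n * (2 : ℝ) ^ ((n : ℝ) / 2) :=
    mul_le_mul_of_nonneg_left h7 hn0
  have h13 : (n : ℝ) * (bp N).card ≤ n * (np n).card := mul_le_mul_of_nonneg_left h11 hn0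
  nlinarith

theorem many_primes : ∃ n₀ : ℕ, ∀ n ≥ n₀, (2 : ℝ) ^ ((19 : ℝ) / 20 * n) ≤ (np n).card := by
  -- `6 n ≤ 2^(n/20)` for large `n`
  have h1 : Filter.Tendsto (fun n : ℕ => (n : ℝ) ^ 1 / ((2 : ℝ) ^ ((1 : ℝ) / 20)) ^ n)
      Filter.atTop (nhds 0) := by
    apply tendsto_pow_const_div_const_pow_of_one_lt
    exact Real.one_lt_rpow (by norm_num) (by norm_num)
  have h2 := h1.eventually (gt_mem_nhds (show (0 : ℝ) < 1 / 12 by norm_num))
  obtain ⟨m, hm⟩ := Filter.eventually_atTop.1 h2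
  refine ⟨max m 4, fun n hn => ?_⟩
  have hn4 : 4 ≤ n := le_trans (le_max_right _ _) hn
  have hnm : m ≤ n := le_trans (le_max_left _ _) hn
  have h3 := hm n hnm
  have hn1 : (4 : ℝ) ≤ n := by exact_mod_cast hn4
  have hr : ((2 : ℝ) ^ ((1 : ℝ) / 20)) ^ n = (2 : ℝ) ^ ((n : ℝ) / 20) := by
    rw [← Real.rpow_natCast, ← Real.rpow_mul (by norm_num)]
    congr 1; ring
  rw [hr, pow_one, div_lt_iff₀ (by positivity)] at h3
  have h4 := np_lower n hn4
  -- split the powers
  have e1 : (2 : ℝ) ^ n = (2 : ℝ) ^ ((19 : ℝ) / 20 * n) * (2 : ℝ) ^ ((n : ℝ) / 20) := by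
    rw [← Real.rpow_add (by norm_num), ← Real.rpow_natCast]
    congr 1; ring
  have e2 : (2 : ℝ) ^ ((n : ℝ) / 2) ≤ (2 : ℝ) ^ ((19 : ℝ) / 20 * n) := by
    apply Real.rpow_le_rpow_of_exponent_le (by norm_num)
    linarith
  have e3 : (1 : ℝ) ≤ (2 : ℝ) ^ ((19 : ℝ) / 20 * n) := by
    apply Real.one_le_rpow (by norm_num)
    positivity
  set X : ℝ := (2 : ℝ) ^ ((19 : ℝ) / 20 * n) with hX
  set Y : ℝ := (2 : ℝ) ^ ((n : ℝ) / 20) with hY
  rw [e1] at h4
  have hX0 : 0 < X := by linarith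
  have h5 : (n : ℝ) * ((2 : ℝ) ^ ((n : ℝ) / 2) + 1) ≤ n * (2 * X) := by
    apply mul_le_mul_of_nonneg_left _ (by positivity)
    linarith
  have h6 : X * (12 * n) ≤ X * Y := mul_le_mul_of_nonneg_left (by linarith) hX0.le
  have h7 : (n : ℝ) * X ≤ n * (np n).card := by nlinarith
  exact le_of_mul_le_mul_left h7 (by linarith)

end Pool.Agent.MP_5082c5_lc
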