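import Pool.Agent.MP_5082c5_lc.Machine

/-!
# MP_5082c5_lc: crossing sequences
-/

namespace Pool.Agent.MP_5082c5_lc

variable (M : TM)

/-- The memory: everything but the position of the input head. -/
abbrev Mem (M : TM) : Type := M.Q × (Fin M.k → ℤ → M.Γ) × (Fin M.k → ℤ)

/-- the memory of a configuration -/
def mem {M : TM} (c : Conf M) : Mem M := (c.q, c.tape, c.hd)

theorem conf_ext {M : TM} {c d : Conf M} (h1 : mem c = mem d) (h2 : c.pos = d.pos) : c = d := by
  simp only [mem, Prod.mk.injEq] at h1
  exact Conf.ext h1.1 h2 h1.2.1 h1.2.2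

/-- The input head crosses the boundary between positions `j` and `j + 1` in step `t`. -/
def Crosses (w : List Bool) (j t : ℕ) : Prop :=
  ¬ ((run M w t).pos ≤ j ↔ (run M w (t + 1)).pos ≤ j)

/-- the set of times at which the boundary `j` is crossed -/
def crossTimes (w : List Bool) (j : ℕ) : Set ℕ := {t | Crosses M w j t}

open Classical in
/-- The crossing sequence at the boundary `j` up to time `t`. -/
noncomputable def cs (w : List Bool) (j : ℕ) : ℕ → List (Mem M)
  | 0 => []
  | t + 1 => if Crosses M w j t then cs w j t ++ [mem (run M w (t + 1))] else cs w j t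

theorem cs_succ_of_cross {w : List Bool} {j t : ℕ} (h : Crosses M w j t) :
    cs M w j (t + 1) = cs M w j t ++ [mem (run M w (t + 1))] := by
  rw [cs, if_pos h]

theorem cs_succ_of_not_cross {w : List Bool} {j t : ℕ} (h : ¬ Crosses M w j t) :
    cs M w j (t + 1) = cs M w j t := by
  rw [cs, if_neg h]

theorem symAt_append_left (u v : List Bool) {i : ℕ} (hi : i ≤ u.length) (v' : List Bool) :
    symAt (u ++ v) i = symAt (u ++ v') i := by
  unfold symAt
  by_cases h0 : i = 0
  · simp [h0]
  · rw [if_neg h0, if_neg h0, List.getElem?_append_left (by omega),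
      List.getElem?_append_left (by omega)]

theorem symAt_append_right (u v u' : List Bool) {i : ℕ} (hu : u.length = u'.length)
    (hi : u.length < i) : symAt (u ++ v) i = symAt (u' ++ v) i := by
  unfold symAt
  have h0 : i ≠ 0 := by omega
  rw [if_neg h0, if_neg h0, List.getElem?_append_right (by omega),
    List.getElem?_append_right (by omega), hu]

theorem step_congr {w w' : List Bool} {c : Conf M} (hl : w.length = w'.length)
    (hs : symAt w c.pos = symAt w' c.pos) : step M w c = step M w' c := by
  unfold step
  rw [hl, hs]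

theorem newPos_cases (n i : ℕ) (m : Move) : newPos n i m = i ∨ newPos n i m + 1 = i ∨
    newPos n i m = i + 1 ∨ (n + 1 < i ∧ newPos n i m = n + 1) := by
  cases m with
  | back =>
    show i - 1 = i ∨ i - 1 + 1 = i ∨ i - 1 = i + 1 ∨ (n + 1 < i ∧ i - 1 = n + 1)
    omega
  | stay => exact Or.inl rfl
  | forward =>
    show min (i + 1) (n + 1) = i ∨ min (i + 1) (n + 1) + 1 = i ∨ min (i + 1) (n + 1) = i + 1 ∨
      (n + 1 < i ∧ min (i + 1) (n + 1) = n + 1)
    rcases le_total (i + 1) (n + 1) with h | h
    · rw [min_eq_left h]; omega
    · rw [min_eq_right h]; omega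

theorem pos_le (w : List Bool) (t : ℕ) : (run M w t).pos ≤ w.length + 1 := by
  induction t with
  | zero => simp [run, initConf]
  | succ t ih =>
    rw [run, step]
    split_ifs
    · exact ih
    · simp only
      generalize (M.δ (run M w t).q (symAt w (run M w t).pos)
        (fun i => (run M w t).tape i ((run M w t).hd i))).2.1 = m
      cases m <;> simp only [newPos] <;> omega

theorem pos_succ (w : List Bool) (t : ℕ) : (run M w (t + 1)).pos = (run M w t).pos ∨
    (run M w (t + 1)).pos + 1 = (run M w t).pos ∨
    (run M w (t + 1)).pos = (run M w t).pos + 1 := by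
  have h1 := pos_le M w t
  rw [run, step]
  split_ifs
  · left; rfl
  · simp only
    rcases newPos_cases w.length (run M w t).pos (M.δ (run M w t).q (symAt w (run M w t).pos)
        (fun i => (run M w t).tape i ((run M w t).hd i))).2.1 with h | h | h | h
    · exact Or.inl h
    · exact Or.inr (Or.inl h)
    · exact Or.inr (Or.inr h)
    · omega

theorem cross_left {w : List Bool} {j t : ℕ} (h : Crosses M w j t)
    (h1 : (run M w (t + 1)).pos ≤ j) :
    ¬ (run M w t).pos ≤ j ∧ (run M w (t + 1)).pos = j := by
  have h2 : ¬ (run M w t).pos ≤ j := by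
    intro h3; exact h ⟨fun _ => h1, fun _ => h3⟩
  have := pos_succ M w t
  exact ⟨h2, by omega⟩

theorem cross_right {w : List Bool} {j t : ℕ} (h : Crosses M w j t)
    (h1 : ¬ (run M w (t + 1)).pos ≤ j) :
    (run M w t).pos ≤ j ∧ (run M w (t + 1)).pos = j + 1 := by
  have h2 : (run M w t).pos ≤ j := by
    by_contra h3; exact h ⟨fun h => absurd h h3, fun h => absurd h h1⟩
  have := pos_succ M w t
  exact ⟨h2, by omega⟩

theorem side_iff (w : List Bool) (j t : ℕ) :
    (run M w t).pos ≤ j ↔ Even (cs M w j t).length := by
  induction t with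
  | zero => simp [run, initConf, cs]
  | succ t ih =>
    by_cases h : Crosses M w j t
    · rw [cs_succ_of_cross M h, List.length_append, List.length_singleton, Nat.even_add_one, ← ih]
      unfold Crosses at h
      tauto
    · rw [cs_succ_of_not_cross M h, ← ih]
      unfold Crosses at h
      tauto

theorem last_cross {w : List Bool} {j b : ℕ} {l : List (Mem M)} {m : Mem M}
    (h : cs M w j b = l ++ [m]) :
    ∃ b' < b, Crosses M w j b' ∧ cs M w j b' = l ∧ mem (run M w (b' + 1)) = m ∧
      ((run M w (b' + 1)).pos ≤ j ↔ (run M w b).pos ≤ j) := by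
  induction b with
  | zero => simp [cs] at h
  | succ b ih =>
    by_cases hc : Crosses M w j b
    · rw [cs_succ_of_cross M hc] at h
      have h1 := List.append_inj' h rfl
      refine ⟨b, by omega, hc, h1.1, ?_, Iff.rfl⟩
      simpa using h1.2
    · rw [cs_succ_of_not_cross M hc] at h
      obtain ⟨b', hb', h1, h2, h3, h4⟩ := ih h
      refine ⟨b', by omega, h1, h2, h3, ?_⟩
      unfold Crosses at hc
      tauto

/-- Cut and paste: equal crossing sequences allow to combine the left part of one input with the
right part of another one. -/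
theorem hybrid {u v u' v' : List Bool} {j : ℕ} (hu : u.length = j) (hu' : u'.length = j)
    (hv : v.length = v'.length) (a b : ℕ)
    (h : cs M (u ++ v) j a = cs M (u' ++ v') j b) :
    ((run M (u ++ v) a).pos ≤ j → ∃ τ, run M (u ++ v') τ = run M (u ++ v) a) ∧
    (¬ (run M (u ++ v) a).pos ≤ j → ∃ τ, run M (u ++ v') τ = run M (u' ++ v') b) := by
  -- locality
  have locL : ∀ c : Conf M, c.pos ≤ j → step M (u ++ v') c = step M (u ++ v) c := by
    intro c hc
    apply step_congr
    · simp [hv]
    · exact symAt_append_left u v' (by omega) v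
  have locR : ∀ c : Conf M, ¬ c.pos ≤ j → step M (u ++ v') c = step M (u' ++ v') c := by
    intro c hc
    apply step_congr
    · simp [hu, hu']
    · exact symAt_append_right u v' u' (by omega) (by omega)
  obtain ⟨s, hs⟩ : ∃ s, a + b = s := ⟨_, rfl⟩
  induction s using Nat.strong_induction_on generalizing a b with
  | _ s ih =>
    constructor
    · intro hleft
      cases a with
      | zero => exact ⟨0, rfl⟩
      | succ a =>
        by_cases hc : Crosses M (u ++ v) j a
        · obtain ⟨hr, hp⟩ := cross_left M hc hleft
          rw [cs_succ_of_cross M hc] at h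
          obtain ⟨b', hb', h1, h2, h3, h4⟩ := last_cross M h.symm
          obtain ⟨-, ih2⟩ := ih (a + b') (by omega) a b' h2.symm rfl
          obtain ⟨τ, hτ⟩ := ih2 hr
          -- the side of `b'`
          have hsb : ¬ (run M (u' ++ v') b').pos ≤ j := by
            rw [side_iff, h2, ← side_iff]; exact hr
          have hsb1 : (run M (u' ++ v') (b' + 1)).pos ≤ j := by
            by_contra hcon
            exact hsb (cross_right M h1 hcon).1
          have hp' := (cross_left M h1 hsb1).2
          refine ⟨τ + 1, ?_⟩
          rw [run, hτ, locR _ hsb]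
          have : step M (u' ++ v') (run M (u' ++ v') b') = run M (u' ++ v') (b' + 1) := rfl
          rw [this]
          exact conf_ext h3 (by rw [hp', hp])
        · rw [cs_succ_of_not_cross M hc] at h
          obtain ⟨ih1, -⟩ := ih (a + b) (by omega) a b h rfl
          have hl : (run M (u ++ v) a).pos ≤ j := by
            unfold Crosses at hc; tauto
          obtain ⟨τ, hτ⟩ := ih1 hl
          refine ⟨τ + 1, ?_⟩
          rw [run, hτ, locL _ hl]
          rfl
    · intro hright
      have hrb : ¬ (run M (u' ++ v') b).pos ≤ j := by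
        rw [side_iff, ← h, ← side_iff]; exact hright
      cases b with
      | zero => exact absurd (by simp [run, initConf]) hrb
      | succ b =>
        by_cases hc : Crosses M (u' ++ v') j b
        · obtain ⟨hl, hp⟩ := cross_right M hc hrb
          rw [cs_succ_of_cross M hc] at h
          obtain ⟨a', ha', h1, h2, h3, h4⟩ := last_cross M h
          have hsa : (run M (u ++ v) a').pos ≤ j := by
            rw [side_iff, h2, ← side_iff]; exact hl
          obtain ⟨ih1, -⟩ := ih (a' + b) (by omega) a' b h2 rfl
          obtain ⟨τ, hτ⟩ := ih1 hsa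
          have hsa1 : ¬ (run M (u ++ v) (a' + 1)).pos ≤ j := by
            intro hcon
            exact (cross_left M h1 hcon).1 hsa
          have hp' := (cross_right M h1 hsa1).2
          refine ⟨τ + 1, ?_⟩
          rw [run, hτ, locL _ hsa]
          have : step M (u ++ v) (run M (u ++ v) a') = run M (u ++ v) (a' + 1) := rfl
          rw [this]
          exact conf_ext h3 (by rw [hp', hp])
        · rw [cs_succ_of_not_cross M hc] at h
          obtain ⟨-, ih2⟩ := ih (a + b) (by omega) a b h rfl
          obtain ⟨τ, hτ⟩ := ih2 hright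
          have hl : ¬ (run M (u' ++ v') b).pos ≤ j := by
            unfold Crosses at hc; tauto
          refine ⟨τ + 1, ?_⟩
          rw [run, hτ, locR _ hl]
          rfl

theorem hybrid_accepts {u v u' v' : List Bool} {j : ℕ} (hu : u.length = j)
    (hu' : u'.length = j) (hv : v.length = v'.length) (a b : ℕ)
    (h : cs M (u ++ v) j a = cs M (u' ++ v') j b)
    (ha : M.halt (run M (u ++ v) a).q = some true)
    (hb : M.halt (run M (u' ++ v') b).q = some true) : Accepts M (u ++ v') := by
  obtain ⟨h1, h2⟩ := hybrid M hu hu' hv a b h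
  by_cases hl : (run M (u ++ v) a).pos ≤ j
  · obtain ⟨τ, hτ⟩ := h1 hl
    exact ⟨τ, by rw [hτ]; exact ha⟩
  · obtain ⟨τ, hτ⟩ := h2 hl
    exact ⟨τ, by rw [hτ]; exact hb⟩

theorem cs_length (w : List Bool) (j t : ℕ) :
    ((cs M w j t).length : ℕ∞) ≤ (crossTimes M w j).encard := by
  classical
  have h1 : (cs M w j t).length = ((Finset.range t).filter (fun s => Crosses M w j s)).card := by
    induction t with
    | zero => simp [cs]
    | succ t ih =>
      rw [Finset.range_add_one, Finset.filter_insert]
      by_cases hc : Crosses M w j t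
      · rw [cs_succ_of_cross M hc, if_pos hc, Finset.card_insert_of_notMem (by simp), ← ih]
        simp
      · rw [cs_succ_of_not_cross M hc, if_neg hc, ih]
  rw [h1, ← Set.encard_coe_eq_coe_finsetCard]
  apply Set.encard_le_encard
  intro s hs
  simp only [Finset.coe_filter, Finset.mem_range] at hs
  exact hs.2

end Pool.Agent.MP_5082c5_lc
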