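import Pool.Agent.MP_5082c5_lc.Machine
import Pool.Agent.MP_5082c5_lc.Count

/-!
# MP_5082c5_lc: binary words and numbers
-/

namespace Pool.Agent.MP_5082c5_lc

/-- the value of a binary word, most significant digit first -/
def val (w : List Bool) : ℕ := w.foldl (fun a b => 2 * a + b.toNat) 0

theorem foldl_eq (v : List Bool) (a : ℕ) :
    v.foldl (fun a b => 2 * a + b.toNat) a = a * 2 ^ v.length + val v := by
  induction v generalizing a with
  | nil => simp [val]
  | cons b v ih =>
    unfold val
    rw [List.foldl_cons, List.foldl_cons, ih, ih, List.length_cons, pow_succ]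
    ring

theorem val_append (u v : List Bool) : val (u ++ v) = val u * 2 ^ v.length + val v := by
  rw [val, List.foldl_append, foldl_eq]
  rfl

theorem val_lt (v : List Bool) : val v < 2 ^ v.length := by
  induction v with
  | nil => simp [val]
  | cons b v ih =>
    have h : val (b :: v) = b.toNat * 2 ^ v.length + val v := by
      have := val_append [b] v
      simpa [val] using this
    rw [h, List.length_cons, pow_succ]
    cases b <;> simp <;> omega

theorem val_bits (p : ℕ) : val (Nat.bits p).reverse = p := by
  induction p using Nat.binaryRec' with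
  | zero => simp [val]
  | bit b n h ih =>
    rw [Nat.bits_append_bit n b h, List.reverse_cons, val_append, ih]
    simp only [List.length_singleton, pow_one]
    cases b <;> simp [val, Nat.bit] <;> omega

/-- the binary representation of a number -/
def enc (p : ℕ) : List Bool := (Nat.bits p).reverse

theorem val_enc (p : ℕ) : val (enc p) = p := val_bits p

theorem enc_length {n p : ℕ} (hn : 1 ≤ n) (h1 : 2 ^ (n - 1) ≤ p) (h2 : p < 2 ^ n) :
    (enc p).length = n := by
  rw [enc, List.length_reverse, Nat.size_eq_bits_len]
  apply le_antisymm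
  · exact Nat.size_le.2 h2
  · have : n - 1 < Nat.size p := Nat.lt_size.2 h1
    omega

theorem enc_mem_primes {p : ℕ} (hp : p.Prime) : enc p ∈ PRIMES := ⟨p, hp, rfl⟩

theorem prime_of_mem {w : List Bool} (h : w ∈ PRIMES) : (val w).Prime := by
  obtain ⟨p, hp, rfl⟩ := h
  rw [val_bits]
  exact hp

/-- The value of the first `j` digits of a number with `j + b` digits. -/
theorem val_take_drop {n j b p : ℕ} (hn : 1 ≤ n) (hjb : j + b = n) (h1 : 2 ^ (n - 1) ≤ p)
    (h2 : p < 2 ^ n) : val ((enc p).take j) = p / 2 ^ b ∧ val ((enc p).drop j) = p % 2 ^ b := by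
  have hl := enc_length hn h1 h2
  have h3 : val (enc p) = val ((enc p).take j) * 2 ^ b + val ((enc p).drop j) := by
    conv_lhs => rw [← List.take_append_drop j (enc p)]
    rw [val_append]
    congr 3
    rw [List.length_drop, hl]; omega
  have h4 : val ((enc p).drop j) < 2 ^ b := by
    have := val_lt ((enc p).drop j)
    rwa [List.length_drop, hl, show n - j = b by omega] at this
  rw [val_enc] at h3
  have hb : 0 < 2 ^ b := by positivity
  set x := val ((enc p).take j) with hx
  set y := val ((enc p).drop j) with hy
  constructor
  · have : p / 2 ^ b = (2 ^ b * x + y) / 2 ^ b := by rw [mul_comm, ← h3]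
    rw [this, Nat.mul_add_div hb, Nat.div_eq_of_lt h4, add_zero]
  · have : p % 2 ^ b = (2 ^ b * x + y) % 2 ^ b := by rw [mul_comm, ← h3]
    rw [this, Nat.mul_add_mod, Nat.mod_eq_of_lt h4]

end Pool.Agent.MP_5082c5_lc
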