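import Pool.Agent.MP_5082c5_lc.Main

/-!
# MP_5082c5_lc: the trade-offs for all `n`
-/

namespace Pool.Agent.MP_5082c5_lc

theorem start_running (M : TM) (hM : ∀ w, Accepts M w ↔ w ∈ PRIMES) (w : List Bool) :
    0 ∈ running M w := by
  show M.halt M.start = none
  by_contra h
  have hrun : ∀ (w : List Bool) (t : ℕ), run M w t = initConf M := by
    intro w t
    induction t with
    | zero => rfl
    | succ t ih =>
      rw [run, ih, step]
      exact if_pos (Option.isSome_iff_ne_none.2 h)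
  have h2 : Accepts M (enc 2) := (hM _).2 (enc_mem_primes Nat.prime_two)
  obtain ⟨t, ht⟩ := h2
  rw [hrun] at ht
  have h3 : Accepts M [] := ⟨0, by rw [hrun]; exact ht⟩
  have h4 := prime_of_mem ((hM _).1 h3)
  exact Nat.not_prime_zero (by simpa [val] using h4)

theorem one_le_time (M : TM) (hM : ∀ w, Accepts M w ↔ w ∈ PRIMES) {n T : ℕ}
    (h : time M n ≤ T) : 1 ≤ T := by
  have h1 := running_le M h (w := List.replicate n true) (by simp)
  have h2 : (1 : ℕ∞) ≤ (running M (List.replicate n true)).encard := by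
    rw [Set.one_le_encard_iff_nonempty]
    exact ⟨0, start_running M hM _⟩
  exact_mod_cast h2.trans h1

theorem reversal_space_all (M : TM) (hM : ∀ w, Accepts M w ↔ w ∈ PRIMES) :
    ∃ c : ℝ, 0 < c ∧ ∀ n R S : ℕ, reversals M n ≤ R → space M n ≤ S →
      c * n ≤ ((R : ℝ) + 1) * (S + 1) := by
  obtain ⟨n₁, h1⟩ := reversal_space M hM
  have hc := c0_pos M
  set m : ℕ := max n₁ 1 with hm
  have hm1 : (1 : ℝ) ≤ m := by exact_mod_cast le_max_right _ _
  refine ⟨min (c0 M) (1 / (m : ℝ)), by positivity, ?_⟩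
  intro n R S hR hS
  by_cases hn : n₁ ≤ n
  · refine le_trans ?_ (h1 n hn R S hR hS)
    exact mul_le_mul_of_nonneg_right (min_le_left _ _) (by positivity)
  · have hnm : (n : ℝ) ≤ m := by
      have : n ≤ m := by rw [hm]; omega
      exact_mod_cast this
    have h3 : min (c0 M) (1 / (m : ℝ)) * n ≤ 1 := by
      calc min (c0 M) (1 / (m : ℝ)) * n ≤ (1 / (m : ℝ)) * m := by
            apply mul_le_mul (min_le_right _ _) hnm (by positivity) (by positivity)
        _ = 1 := by field_simp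
    have h4 : (1 : ℝ) ≤ ((R : ℝ) + 1) * (S + 1) := by
      have : (0 : ℝ) ≤ R := by positivity
      have : (0 : ℝ) ≤ S := by positivity
      nlinarith
    linarith

theorem time_space_all (M : TM) (hM : ∀ w, Accepts M w ↔ w ∈ PRIMES) :
    ∃ c : ℝ, 0 < c ∧ ∀ n T S : ℕ, time M n ≤ T → space M n ≤ S →
      c * (n : ℝ) ^ 2 ≤ (T : ℝ) * (S + 1) := by
  obtain ⟨n₂, h2⟩ := time_space M hM
  have hc := c0_pos M
  set m : ℕ := max n₂ 1 with hm
  have hm1 : (1 : ℝ) ≤ m := by exact_mod_cast le_max_right _ _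
  refine ⟨min (c0 M / 20) (1 / (m : ℝ) ^ 2), by positivity, ?_⟩
  intro n T S hT hS
  by_cases hn : n₂ ≤ n
  · refine le_trans ?_ (h2 n hn T S hT hS)
    exact mul_le_mul_of_nonneg_right (min_le_left _ _) (by positivity)
  · have hnm : (n : ℝ) ≤ m := by
      have : n ≤ m := by rw [hm]; omega
      exact_mod_cast this
    have h3 : min (c0 M / 20) (1 / (m : ℝ) ^ 2) * (n : ℝ) ^ 2 ≤ 1 := by
      calc min (c0 M / 20) (1 / (m : ℝ) ^ 2) * (n : ℝ) ^ 2 ≤ (1 / (m : ℝ) ^ 2) * (m : ℝ) ^ 2 := by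
            apply mul_le_mul (min_le_right _ _) _ (by positivity) (by positivity)
            exact pow_le_pow_left₀ (by positivity) hnm 2
        _ = 1 := by field_simp
    have hT1 : (1 : ℝ) ≤ T := by exact_mod_cast one_le_time M hM hT
    have h4 : (1 : ℝ) ≤ (T : ℝ) * (S + 1) := by
      have : (0 : ℝ) ≤ S := by positivity
      nlinarith
    linarith

end Pool.Agent.MP_5082c5_lc
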