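import Mathlib

/-!
# MP_5082c5_lc: deterministic Turing machines with two-way read-only input
-/

namespace Pool.Agent.MP_5082c5_lc

/-- The symbols on the input tape: the left endmarker, the bits of the input, the right
endmarker. -/
inductive Sym
  | left
  | bit (b : Bool)
  | right

/-- The moves of a head. -/
inductive Move
  | back
  | stay
  | forward

/-- A move as an integer displacement. -/
def Move.toInt : Move → ℤ
  | .back => -1
  | .stay => 0
  | .forward => 1

/-- A deterministic Turing machine with a two-way read-only input tape and `k` two-way infinite
read-write work tapes. -/
structure TM where
  /-- the number of work tapes -/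
  k : ℕ
  /-- the states -/
  Q : Type
  /-- the work tape symbols -/
  Γ : Type
  [finQ : Fintype Q]
  [finΓ : Fintype Γ]
  /-- the blank symbol -/
  blank : Γ
  /-- the initial state -/
  start : Q
  /-- `some true` for the accepting halting states, `some false` for the rejecting halting states,
  `none` for the other states -/
  halt : Q → Option Bool
  /-- the transition function: from the state, the scanned input symbol and the scanned work
  symbols to the new state, the move of the input head, the written work symbols and the moves of
  the work heads -/
  δ : Q → Sym → (Fin k → Γ) → Q × Move × (Fin k → Γ) × (Fin k → Move)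

attribute [instance] TM.finQ TM.finΓ

/-- A configuration: state, position of the input head, contents of the work tapes, positions of
the work heads. Position `0` of the input tape holds the left endmarker, positions `1, …, n` hold
the input, position `n + 1` holds the right endmarker. -/
@[ext] structure Conf (M : TM) where
  q : M.Q
  pos : ℕ
  tape : Fin M.k → ℤ → M.Γ
  hd : Fin M.k → ℤ

/-- The symbol in position `i` of the input tape that holds the input `w`. -/
def symAt (w : List Bool) (i : ℕ) : Sym :=
  if i = 0 then .left else
    match w[i - 1]? with
    | some b => .bit b
    | none => .right

/-- The new position of the input head; the head never leaves the positions `0, …, n + 1`. -/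
def newPos (n : ℕ) (i : ℕ) : Move → ℕ
  | .back => i - 1
  | .stay => i
  | .forward => min (i + 1) (n + 1)

/-- One step on the input `w`; halting states stay unchanged. -/
def step (M : TM) (w : List Bool) (c : Conf M) : Conf M :=
  if (M.halt c.q).isSome then c else
    let r := M.δ c.q (symAt w c.pos) (fun i => c.tape i (c.hd i))
    { q := r.1
      pos := newPos w.length c.pos r.2.1
      tape := fun i z => if z = c.hd i then r.2.2.1 i else c.tape i z
      hd := fun i => c.hd i + (r.2.2.2 i).toInt }

/-- The initial configuration. -/
def initConf (M : TM) : Conf M :=
  { q := M.start
    pos := 0
    tape := fun _ _ => M.blank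
    hd := fun _ => 0 }

/-- The configuration after `t` steps on the input `w`. -/
def run (M : TM) (w : List Bool) : ℕ → Conf M
  | 0 => initConf M
  | t + 1 => step M w (run M w t)

/-- `M` halts on `w` and accepts. -/
def Accepts (M : TM) (w : List Bool) : Prop := ∃ t, M.halt (run M w t).q = some true

/-- The binary representations (most significant digit first, no leading zeros) of the primes. -/
def PRIMES : Set (List Bool) := {w | ∃ p : ℕ, p.Prime ∧ w = (Nat.bits p).reverse}

/-- The work cells visited on the input `w`: pairs (work tape, position). -/
def visited (M : TM) (w : List Bool) : Set (Fin M.k × ℤ) :=
  {x | ∃ t, (run M w t).hd x.1 = x.2}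

/-- The times before the machine halts. -/
def running (M : TM) (w : List Bool) : Set ℕ := {t | M.halt (run M w t).q = none}

/-- The displacement of the input head in step `t`. -/
def disp (M : TM) (w : List Bool) (t : ℕ) : ℤ :=
  ((run M w (t + 1)).pos : ℤ) - ((run M w t).pos : ℤ)

/-- The times at which the input head reverses its direction: the head moves, and its last
previous movement was in the opposite direction. -/
def reversalTimes (M : TM) (w : List Bool) : Set ℕ :=
  {t | ∃ s < t, disp M w s * disp M w t = -1 ∧ ∀ u, s < u → u < t → disp M w u = 0}

/-- The space function `S(n)`: the maximal number of visited work cells on inputs of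
length `n`. -/
noncomputable def space (M : TM) (n : ℕ) : ℕ∞ :=
  ⨆ w : {w : List Bool // w.length = n}, (visited M w.1).encard

/-- The time function: the maximal number of steps before halting on inputs of length `n`. -/
noncomputable def time (M : TM) (n : ℕ) : ℕ∞ :=
  ⨆ w : {w : List Bool // w.length = n}, (running M w.1).encard

/-- The maximal number of reversals of the input head on inputs of length `n`. -/
noncomputable def reversals (M : TM) (n : ℕ) : ℕ∞ :=
  ⨆ w : {w : List Bool // w.length = n}, (reversalTimes M w.1).encard

end Pool.Agent.MP_5082c5_lc
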