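import Pool.Agent.MP_5082c5_lc.Cross

/-!
# MP_5082c5_lc: crossings, reversals and running time
-/

namespace Pool.Agent.MP_5082c5_lc

variable (M : TM)

open Classical in
theorem cs_length_eq (w : List Bool) (j t : ℕ) :
    (cs M w j t).length = ((Finset.range t).filter (fun s => Crosses M w j s)).card := by
  induction t with
  | zero => simp [cs]
  | succ t ih =>
    rw [Finset.range_add_one, Finset.filter_insert]
    by_cases hc : Crosses M w j t
    · rw [cs_succ_of_cross M hc, if_pos hc, Finset.card_insert_of_notMem (by simp), ← ih]
      simp
    · rw [cs_succ_of_not_cross M hc, if_neg hc, ih]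

theorem cs_mem (w : List Bool) (j t : ℕ) (m : Mem M) (hm : m ∈ cs M w j t) :
    ∃ s, m = mem (run M w s) := by
  induction t with
  | zero => simp [cs] at hm
  | succ t ih =>
    by_cases hc : Crosses M w j t
    · rw [cs_succ_of_cross M hc, List.mem_append, List.mem_singleton] at hm
      rcases hm with hm | hm
      · exact ih hm
      · exact ⟨t + 1, hm⟩
    · rw [cs_succ_of_not_cross M hc] at hm
      exact ih hm

theorem disp_cases (w : List Bool) (t : ℕ) :
    disp M w t = 0 ∨ disp M w t = 1 ∨ disp M w t = -1 := by
  have := pos_succ M w t
  unfold disp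
  omega

/-- the direction of the last movement before time `t` -/
def lastDir (w : List Bool) : ℕ → ℤ
  | 0 => 0
  | t + 1 => if disp M w t = 0 then lastDir w t else disp M w t

theorem lastDir_spec (w : List Bool) (t : ℕ) (h : lastDir M w t ≠ 0) :
    ∃ s < t, disp M w s = lastDir M w t ∧ ∀ u, s < u → u < t → disp M w u = 0 := by
  induction t with
  | zero => simp [lastDir] at h
  | succ t ih =>
    by_cases h0 : disp M w t = 0
    · rw [lastDir, if_pos h0] at h ⊢
      obtain ⟨s, hs, h1, h2⟩ := ih h
      refine ⟨s, by omega, h1, fun u hu hu' => ?_⟩
      rcases Nat.lt_succ_iff_lt_or_eq.1 hu' with h3 | h3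
      · exact h2 u hu h3
      · rw [h3]; exact h0
    · rw [lastDir, if_neg h0]
      exact ⟨t, by omega, rfl, fun u hu hu' => by omega⟩

theorem reversal_of_lastDir (w : List Bool) (t : ℕ) (h : lastDir M w t * disp M w t = -1) :
    t ∈ reversalTimes M w := by
  have h0 : lastDir M w t ≠ 0 := by
    intro h0; rw [h0] at h; simp at h
  obtain ⟨s, hs, h1, h2⟩ := lastDir_spec M w t h0
  exact ⟨s, hs, by rw [h1]; exact h, h2⟩

open Classical in
theorem cross_le_rev_aux (w : List Bool) (j t : ℕ) :
    (cs M w j t).length ≤ ((Finset.range t).filter (fun s => s ∈ reversalTimes M w)).card + 1 ∧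
    ((cs M w j t).length =
      ((Finset.range t).filter (fun s => s ∈ reversalTimes M w)).card + 1 →
      lastDir M w t = if (run M w t).pos ≤ j then -1 else 1) := by
  induction t with
  | zero => simp [cs]
  | succ t ih =>
    obtain ⟨ih1, ih2⟩ := ih
    set R := (Finset.range t).filter (fun s => s ∈ reversalTimes M w) with hR
    have hR' : ((Finset.range (t + 1)).filter (fun s => s ∈ reversalTimes M w)).card =
        R.card + if t ∈ reversalTimes M w then 1 else 0 := by
      rw [Finset.range_add_one, Finset.filter_insert]
      split_ifs with h
      · rw [Finset.card_insert_of_notMem (by simp)]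
      · rfl
    rw [hR']
    have hd := disp_cases M w t
    by_cases hc : Crosses M w j t
    · have hlen : (cs M w j (t + 1)).length = (cs M w j t).length + 1 := by
        rw [cs_succ_of_cross M hc]; simp
      rw [hlen]
      by_cases hl : (run M w (t + 1)).pos ≤ j
      · obtain ⟨h1, h2⟩ := cross_left M hc hl
        have hps := pos_succ M w t
        have hdisp : disp M w t = -1 := by unfold disp; omega
        have hlast : lastDir M w (t + 1) = -1 := by
          rw [lastDir, if_neg (by rw [hdisp]; norm_num), hdisp]
        refine ⟨?_, fun _ => by rw [hlast, if_pos hl]⟩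
        by_cases heq : (cs M w j t).length = R.card + 1
        · have h3 := ih2 heq
          rw [if_neg h1] at h3
          have h4 : t ∈ reversalTimes M w := reversal_of_lastDir M w t (by
            rw [h3, hdisp]; norm_num)
          rw [if_pos h4]; omega
        · split_ifs <;> omega
      · obtain ⟨h1, h2⟩ := cross_right M hc hl
        have hps := pos_succ M w t
        have hdisp : disp M w t = 1 := by unfold disp; omega
        have hlast : lastDir M w (t + 1) = 1 := by
          rw [lastDir, if_neg (by rw [hdisp]; norm_num), hdisp]
        refine ⟨?_, fun _ => by rw [hlast, if_neg hl]⟩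
        by_cases heq : (cs M w j t).length = R.card + 1
        · have h3 := ih2 heq
          rw [if_pos h1] at h3
          have h4 : t ∈ reversalTimes M w := reversal_of_lastDir M w t (by
            rw [h3, hdisp]; norm_num)
          rw [if_pos h4]; omega
        · split_ifs <;> omega
    · rw [cs_succ_of_not_cross M hc]
      have hside : (run M w t).pos ≤ j ↔ (run M w (t + 1)).pos ≤ j := by
        unfold Crosses at hc; tauto
      refine ⟨by split_ifs <;> omega, fun heq => ?_⟩
      have heq' : (cs M w j t).length = R.card + 1 := by
        split_ifs at heq <;> omega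
      have hnr : t ∉ reversalTimes M w := by
        intro hr
        rw [if_pos hr] at heq
        omega
      have h3 := ih2 heq'
      by_cases h0 : disp M w t = 0
      · rw [lastDir, if_pos h0, h3]
        simp only [hside]
      · rw [lastDir, if_neg h0]
        have h5 : lastDir M w t * disp M w t ≠ -1 := fun h => hnr (reversal_of_lastDir M w t h)
        simp only [← hside]
        rw [h3] at h5
        split_ifs at h5 ⊢ <;> rcases hd with hd | hd | hd <;> rw [hd] at h5 ⊢ <;> omega

theorem cross_le_rev (w : List Bool) (j t r : ℕ) (h : (reversalTimes M w).encard ≤ r) :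
    (cs M w j t).length ≤ r + 1 := by
  classical
  have h1 := (cross_le_rev_aux M w j t).1
  have h2 : (((Finset.range t).filter (fun s => s ∈ reversalTimes M w)).card : ℕ∞) ≤ r := by
    rw [← Set.encard_coe_eq_coe_finsetCard]
    refine (Set.encard_le_encard ?_).trans h
    intro s hs
    simp only [Finset.coe_filter, Finset.mem_range] at hs
    exact hs.2
  have h3 : ((Finset.range t).filter (fun s => s ∈ reversalTimes M w)).card ≤ r := by
    exact_mod_cast h2
  omega

theorem running_of_cross {w : List Bool} {j t : ℕ} (h : Crosses M w j t) :
    t ∈ running M w := by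
  show M.halt (run M w t).q = none
  by_contra hcon
  apply h
  have : (run M w (t + 1)) = run M w t := by
    rw [run, step, if_pos (Option.isSome_iff_ne_none.2 hcon)]
  rw [this]

theorem cross_unique {w : List Bool} {j j' t : ℕ} (h : Crosses M w j t)
    (h' : Crosses M w j' t) : j = j' := by
  have := pos_succ M w t
  unfold Crosses at h h'
  omega

theorem sum_cross_le (w : List Bool) (J : Finset ℕ) (t T : ℕ)
    (h : (running M w).encard ≤ T) : ∑ j ∈ J, (cs M w j t).length ≤ T := by
  classical
  have h1 : ∑ j ∈ J, (cs M w j t).length =
      ∑ s ∈ Finset.range t, (J.filter (fun j => Crosses M w j s)).card := by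
    simp only [cs_length_eq, Finset.card_filter]
    exact Finset.sum_comm
  have h2 : ∀ s ∈ Finset.range t, (J.filter (fun j => Crosses M w j s)).card ≤
      if s ∈ running M w then 1 else 0 := by
    intro s _
    split_ifs with hs
    · rw [Finset.card_le_one]
      intro a ha b hb
      exact cross_unique M (Finset.mem_filter.1 ha).2 (Finset.mem_filter.1 hb).2
    · rw [Nat.le_zero, Finset.card_eq_zero, Finset.filter_eq_empty_iff]
      intro j _ hj
      exact hs (running_of_cross M hj)
  rw [h1]
  refine (Finset.sum_le_sum h2).trans ?_
  rw [← Finset.card_filter]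
  have h3 : (((Finset.range t).filter (fun s => s ∈ running M w)).card : ℕ∞) ≤ T := by
    rw [← Set.encard_coe_eq_coe_finsetCard]
    refine (Set.encard_le_encard ?_).trans h
    intro s hs
    simp only [Finset.coe_filter, Finset.mem_range] at hs
    exact hs.2
  exact_mod_cast h3

end Pool.Agent.MP_5082c5_lc
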