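import Pool.Agent.MP_5082c5_lc.Cross

/-!
# MP_5082c5_lc: the number of memory states of a machine that uses little space
-/

namespace Pool.Agent.MP_5082c5_lc

variable (M : TM)

theorem toInt_cases (m : Move) (x : ℤ) :
    x + m.toInt = x ∨ x + m.toInt = x + 1 ∨ x + m.toInt = x - 1 := by
  cases m with
  | back => right; right; rfl
  | stay => left; exact add_zero x
  | forward => right; left; rfl

theorem two_mul_add_one_le (s : ℕ) : 2 * s + 1 ≤ 3 ^ s := by
  induction s with
  | zero => simp
  | succ s ih => rw [pow_succ]; omega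

theorem hd_succ (w : List Bool) (t : ℕ) (i : Fin M.k) :
    (run M w (t + 1)).hd i = (run M w t).hd i ∨ (run M w (t + 1)).hd i = (run M w t).hd i + 1 ∨
    (run M w (t + 1)).hd i = (run M w t).hd i - 1 := by
  rw [run, step]
  split_ifs
  · left; rfl
  · exact toInt_cases _ _

theorem tape_succ (w : List Bool) (t : ℕ) (i : Fin M.k) (z : ℤ) (hz : z ≠ (run M w t).hd i) :
    (run M w (t + 1)).tape i z = (run M w t).tape i z := by
  rw [run, step]
  split_ifs
  · rfl
  · simp only [if_neg hz]

theorem visited_between (w : List Bool) (i : Fin M.k) (t : ℕ) :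
    ∀ z : ℤ, ((0 ≤ z ∧ z ≤ (run M w t).hd i) ∨ ((run M w t).hd i ≤ z ∧ z ≤ 0)) →
      (i, z) ∈ visited M w := by
  induction t with
  | zero =>
    intro z hz
    have h0 : (run M w 0).hd i = 0 := rfl
    rw [h0] at hz
    have : z = 0 := by omega
    subst this
    exact ⟨0, rfl⟩
  | succ t ih =>
    intro z hz
    by_cases h : z = (run M w (t + 1)).hd i
    · exact ⟨t + 1, h.symm⟩
    · apply ih
      have := hd_succ M w t i
      omega

theorem hd_lt {w : List Bool} {s : ℕ} (hs : (visited M w).encard ≤ s) (i : Fin M.k) (t : ℕ) :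
    |(run M w t).hd i| < s := by
  have hfin : (visited M w).Finite := by
    rw [← Set.encard_lt_top_iff]
    exact lt_of_le_of_lt hs (ENat.natCast_lt_top s)
  set h := (run M w t).hd i with hh
  have key : ((Finset.Icc (min 0 h) (max 0 h)).map
      ⟨fun z : ℤ => (i, z), fun a b hab => by simpa using hab⟩ : Set (Fin M.k × ℤ)) ⊆
      visited M w := by
    intro x hx
    simp only [Finset.coe_map, Set.mem_image, Finset.coe_Icc,
      Set.mem_Icc] at hx
    obtain ⟨z, hz, rfl⟩ := hx
    apply visited_between M w i t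
    rw [← hh]
    omega
  have h1 := Set.encard_le_encard key
  rw [Set.encard_coe_eq_coe_finsetCard, Finset.card_map, Int.card_Icc] at h1
  have h2 : (((max 0 h + 1 - min 0 h).toNat : ℕ) : ℕ∞) ≤ (s : ℕ∞) := h1.trans hs
  have h3 : (max 0 h + 1 - min 0 h).toNat ≤ s := by exact_mod_cast h2
  rw [abs_lt]
  omega

theorem tape_blank {w : List Bool} (i : Fin M.k) (z : ℤ) (hz : (i, z) ∉ visited M w) (t : ℕ) :
    (run M w t).tape i z = M.blank := by
  induction t with
  | zero => rfl
  | succ t ih =>
    rw [tape_succ M w t i z, ih]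
    rintro rfl
    exact hz ⟨t, rfl⟩

/-- The memory states whose heads and nonblank cells are at distance at most `s`. -/
def memSet (s : ℕ) : Set (Mem M) :=
  {m | (∀ i, |m.2.2 i| ≤ s) ∧ ∀ i z, (s : ℤ) < |z| → m.2.1 i z = M.blank}

theorem mem_memSet {w : List Bool} {s : ℕ} (hs : (visited M w).encard ≤ s) (t : ℕ) :
    mem (run M w t) ∈ memSet M s := by
  refine ⟨fun i => (hd_lt M hs i t).le, fun i z hz => ?_⟩
  apply tape_blank M i z
  rintro ⟨t', ht'⟩
  have := hd_lt M hs i t'
  simp only at ht'
  rw [ht'] at this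
  omega

/-- The base of the exponential bound. -/
noncomputable def base : ℕ :=
  2 * Fintype.card M.Q * Fintype.card M.Γ ^ (2 * M.k) * 3 ^ M.k

theorem card_Q_pos : 1 ≤ Fintype.card M.Q := Fintype.card_pos_iff.2 ⟨M.start⟩

theorem card_Γ_pos : 1 ≤ Fintype.card M.Γ := Fintype.card_pos_iff.2 ⟨M.blank⟩

theorem two_le_base : 2 ≤ base M := by
  have h1 := card_Q_pos M
  have h2 := card_Γ_pos M
  have h3 : 1 ≤ Fintype.card M.Γ ^ (2 * M.k) := Nat.one_le_pow _ _ h2
  have h4 : 1 ≤ 3 ^ M.k := Nat.one_le_pow _ _ (by norm_num)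
  unfold base
  calc 2 = 2 * 1 * 1 * 1 := by norm_num
    _ ≤ _ := by gcongr

/-- encoding of the memory states in `memSet` -/
def code (s : ℕ) (m : Mem M) : M.Q × (Fin M.k → Fin (2 * s + 1) → M.Γ) ×
    (Fin M.k → Fin (2 * s + 1)) :=
  (m.1, fun i z => m.2.1 i ((z : ℤ) - s), fun i => ⟨min (m.2.2 i + s).toNat (2 * s), by omega⟩)

theorem code_injOn (s : ℕ) : Set.InjOn (code M s) (memSet M s) := by
  rintro ⟨q, T, h⟩ hm ⟨q', T', h'⟩ hm' heq
  simp only [code, Prod.mk.injEq] at heq
  obtain ⟨h1, h2, h3⟩ := heq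
  have hhd : h = h' := by
    funext i
    have h4 := congrFun h3 i
    simp only [Fin.mk.injEq] at h4
    have h5 := hm.1 i
    have h6 := hm'.1 i
    simp only at h5 h6
    rw [abs_le] at h5 h6
    omega
  have htp : T = T' := by
    funext i z
    by_cases hz : (s : ℤ) < |z|
    · exact (hm.2 i z hz).trans (hm'.2 i z hz).symm
    · rw [not_lt, abs_le] at hz
      have h4 := congrFun (congrFun h2 i) ⟨(z + s).toNat, by omega⟩
      simp only at h4
      have e : (((z + s).toNat : ℕ) : ℤ) - s = z := by omega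
      rw [e] at h4
      exact h4
  rw [h1, htp, hhd]

theorem memSet_finite (s : ℕ) : (memSet M s).Finite :=
  Set.Finite.of_finite_image (Set.toFinite _) (code_injOn M s)

theorem memSet_card (s : ℕ) : (memSet M s).ncard + 1 ≤ base M ^ (s + 1) := by
  classical
  have h1 : (memSet M s).ncard ≤ Fintype.card (M.Q × (Fin M.k → Fin (2 * s + 1) → M.Γ) ×
      (Fin M.k → Fin (2 * s + 1))) := by
    rw [← (code_injOn M s).ncard_image]
    calc ((code M s) '' memSet M s).ncard ≤ (Set.univ : Set (M.Q ×
          (Fin M.k → Fin (2 * s + 1) → M.Γ) × (Fin M.k → Fin (2 * s + 1)))).ncard :=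
          Set.ncard_le_ncard (Set.subset_univ _) (Set.toFinite _)
      _ = _ := by rw [Set.ncard_univ, Nat.card_eq_fintype_card]
  rw [Fintype.card_prod, Fintype.card_prod, Fintype.card_fun, Fintype.card_fun, Fintype.card_fun,
    Fintype.card_fin, Fintype.card_fin] at h1
  have hQ := card_Q_pos M
  have hΓ := card_Γ_pos M
  have e1 := two_mul_add_one_le s
  set q := Fintype.card M.Q with hq
  set g := Fintype.card M.Γ with hg
  have h2 : q * ((g ^ (2 * s + 1)) ^ M.k * (2 * s + 1) ^ M.k) ≤
      q * (g ^ (2 * M.k * (s + 1)) * 3 ^ (M.k * (s + 1))) := by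
    apply Nat.mul_le_mul_left
    apply Nat.mul_le_mul
    · rw [← pow_mul]
      apply Nat.pow_le_pow_right hΓ
      nlinarith [Nat.zero_le (M.k)]
    · calc (2 * s + 1) ^ M.k ≤ (3 ^ s) ^ M.k := Nat.pow_le_pow_left e1 _
        _ = 3 ^ (M.k * s) := by rw [← pow_mul, mul_comm]
        _ ≤ 3 ^ (M.k * (s + 1)) := Nat.pow_le_pow_right (by norm_num) (by nlinarith)
  have h3 : 1 ≤ q * (g ^ (2 * M.k * (s + 1)) * 3 ^ (M.k * (s + 1))) := by
    have h4 : 1 ≤ g ^ (2 * M.k * (s + 1)) := Nat.one_le_pow _ _ hΓ
    have h5 : 1 ≤ 3 ^ (M.k * (s + 1)) := Nat.one_le_pow _ _ (by norm_num)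
    calc 1 = 1 * (1 * 1) := by norm_num
      _ ≤ _ := by gcongr
  have h6 : 2 * (q * (g ^ (2 * M.k * (s + 1)) * 3 ^ (M.k * (s + 1)))) ≤ base M ^ (s + 1) := by
    unfold base
    rw [← hq, ← hg, mul_pow, mul_pow, ← pow_mul, ← pow_mul]
    have h7 : 2 * q ≤ (2 * q) ^ (s + 1) := by
      apply Nat.le_self_pow (by omega)
    calc 2 * (q * (g ^ (2 * M.k * (s + 1)) * 3 ^ (M.k * (s + 1))))
        = (2 * q) * (g ^ (2 * M.k * (s + 1))) * 3 ^ (M.k * (s + 1)) := by ring
      _ ≤ _ := by gcongr
  omega

/-- the lists of length at most `r` with entries in `memSet M s` -/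
def seqs (s r : ℕ) : Set (List (Mem M)) := {l | l.length ≤ r ∧ ∀ m ∈ l, m ∈ memSet M s}

theorem seqs_finite_card (s r : ℕ) :
    (seqs M s r).Finite ∧ (seqs M s r).ncard ≤ (base M ^ (s + 1)) ^ r := by
  classical
  have hfin := memSet_finite M s
  have := hfin.fintype
  let enc : List (Mem M) → (Fin r → Option (memSet M s)) := fun l i =>
    match l[(i : ℕ)]? with
    | some m => if h : m ∈ memSet M s then some ⟨m, h⟩ else none
    | none => none
  have hinj : Set.InjOn enc (seqs M s r) := by
    intro l hl l' hl' heq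
    apply List.ext_getElem?
    intro i
    by_cases hi : i < r
    · have h1 := congrFun heq ⟨i, hi⟩
      simp only [enc] at h1
      cases ha : l[i]? with
      | none =>
        cases hb : l'[i]? with
        | none => rfl
        | some m' =>
          have hm' : m' ∈ memSet M s := hl'.2 m' (List.mem_of_getElem? hb)
          rw [ha, hb] at h1
          simp [hm'] at h1
      | some m =>
        have hm : m ∈ memSet M s := hl.2 m (List.mem_of_getElem? ha)
        cases hb : l'[i]? with
        | none =>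
          rw [ha, hb] at h1
          simp [hm] at h1
        | some m' =>
          have hm' : m' ∈ memSet M s := hl'.2 m' (List.mem_of_getElem? hb)
          rw [ha, hb] at h1
          simp only [hm, hm', dif_pos, Option.some.injEq, Subtype.mk.injEq] at h1
          rw [h1]
    · have h1 := hl.1
      have h2 := hl'.1
      rw [List.getElem?_eq_none (by omega), List.getElem?_eq_none (by omega)]
  refine ⟨Set.Finite.of_finite_image (Set.toFinite _) hinj, ?_⟩
  rw [← hinj.ncard_image]
  calc (enc '' seqs M s r).ncard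
      ≤ (Set.univ : Set (Fin r → Option (memSet M s))).ncard :=
        Set.ncard_le_ncard (Set.subset_univ _) (Set.toFinite _)
    _ = ((memSet M s).ncard + 1) ^ r := by
        rw [Set.ncard_univ, Nat.card_eq_fintype_card, Fintype.card_fun, Fintype.card_fin,
          Fintype.card_option, ← Nat.card_eq_fintype_card]
        rfl
    _ ≤ (base M ^ (s + 1)) ^ r := Nat.pow_le_pow_left (memSet_card M s) r

end Pool.Agent.MP_5082c5_lc
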