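import Pool.Agent.MP_5082c5_lc.Rect
import Pool.Agent.MP_5082c5_lc.Rev
import Pool.Agent.MP_5082c5_lc.Space
import Pool.Agent.MP_5082c5_lc.Enc

/-!
# MP_5082c5_lc: the trade-offs
-/

namespace Pool.Agent.MP_5082c5_lc

open Finset Real

variable (M : TM)

open Classical in
/-- a time at which the accepting state is reached -/
noncomputable def accTime (w : List Bool) : ℕ := if h : Accepts M w then h.choose else 0

theorem accTime_spec {w : List Bool} (h : Accepts M w) :
    M.halt (run M w (accTime M w)).q = some true := by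
  rw [accTime, dif_pos h]
  exact h.choose_spec

/-- the crossing sequence of the representation of `p` -/
noncomputable def sig (j p : ℕ) : List (Mem M) := cs M (enc p) j (accTime M (enc p))

theorem mem_np {n p : ℕ} : p ∈ np n ↔ 2 ^ (n - 1) ≤ p ∧ p < 2 ^ n ∧ p.Prime := by
  simp [np, and_assoc]

open Classical in
theorem fiber (hM : ∀ w, Accepts M w ↔ w ∈ PRIMES) (n j : ℕ) (hn : 200 ≤ n)
    (h1 : 2 * n ≤ 5 * j) (h2 : 5 * j ≤ 3 * n) (σ : List (Mem M)) :
    (((np n).filter (fun p => sig M j p = σ)).card : ℝ) ≤ (2 : ℝ) ^ ((9 : ℝ) / 10 * n + 9) := by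
  set F := (np n).filter (fun p => sig M j p = σ) with hF
  set b := n - j with hb
  have hjb : j + b = n := by omega
  have hF1 : ∀ p ∈ F, 2 ^ (n - 1) ≤ p ∧ p < 2 ^ n ∧ p.Prime ∧ sig M j p = σ := by
    intro p hp
    obtain ⟨h3, h4⟩ := mem_filter.1 hp
    obtain ⟨h5, h6, h7⟩ := mem_np.1 h3
    exact ⟨h5, h6, h7, h4⟩
  have hrect := rect_card n j b hn hjb h2 (by omega) (F.image (fun p => p / 2 ^ b))
    (F.image (fun p => p % 2 ^ b)) (by
      intro x hx
      obtain ⟨p, hp, rfl⟩ := mem_image.1 hx
      obtain ⟨h3, h4, -, -⟩ := hF1 p hp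
      constructor
      · apply Nat.div_pos _ (by positivity)
        exact (Nat.pow_le_pow_right (by norm_num) (by omega)).trans h3
      · rw [Nat.div_lt_iff_lt_mul (by positivity), ← pow_add, hjb]
        exact h4) (by
      intro y hy
      obtain ⟨p, hp, rfl⟩ := mem_image.1 hy
      exact Nat.mod_lt _ (by positivity)) (by
      intro x hx y hy
      obtain ⟨p, hp, rfl⟩ := mem_image.1 hx
      obtain ⟨p', hp', rfl⟩ := mem_image.1 hy
      obtain ⟨h3, h4, h5, h6⟩ := hF1 p hp
      obtain ⟨h3', h4', h5', h6'⟩ := hF1 p' hp'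
      have hl := enc_length (by omega) h3 h4
      have hl' := enc_length (by omega) h3' h4'
      have v1 := (val_take_drop (by omega) hjb h3 h4).1
      have v2 := (val_take_drop (by omega) hjb h3' h4').2
      have hacc := accTime_spec M ((hM _).2 (enc_mem_primes h5))
      have hacc' := accTime_spec M ((hM _).2 (enc_mem_primes h5'))
      have hcs : cs M (enc p) j (accTime M (enc p)) = cs M (enc p') j (accTime M (enc p')) := by
        have := h6.trans h6'.symm
        exact this
      have e1 := List.take_append_drop j (enc p)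
      have e2 := List.take_append_drop j (enc p')
      have hyb : Accepts M ((enc p).take j ++ (enc p').drop j) := by
        apply hybrid_accepts M (u := (enc p).take j) (v := (enc p).drop j)
          (u' := (enc p').take j) (v' := (enc p').drop j) (j := j) (by
            rw [List.length_take, hl]; omega) (by rw [List.length_take, hl']; omega) (by
            rw [List.length_drop, List.length_drop, hl, hl'])
          (accTime M (enc p)) (accTime M (enc p'))
        · rw [e1, e2]; exact hcs
        · rw [e1]; exact hacc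
        · rw [e2]; exact hacc'
      have hpr := prime_of_mem ((hM _).1 hyb)
      rw [val_append, v1, v2, List.length_drop, hl'] at hpr
      exact hpr)
  refine le_trans ?_ hrect
  have hsub : F.card ≤ ((F.image (fun p => p / 2 ^ b)) ×ˢ (F.image (fun p => p % 2 ^ b))).card := by
    apply Finset.card_le_card_of_injOn (fun p => (p / 2 ^ b, p % 2 ^ b))
    · intro p hp
      simp only [coe_product, coe_image, Set.mem_prod]
      exact ⟨⟨p, hp, rfl⟩, ⟨p, hp, rfl⟩⟩
    · intro p _ p' _ h
      simp only [Prod.mk.injEq] at h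
      rw [← Nat.div_add_mod p (2 ^ b), ← Nat.div_add_mod p' (2 ^ b), h.1, h.2]
  rw [Finset.card_product] at hsub
  exact_mod_cast hsub

open Classical in
theorem few (hM : ∀ w, Accepts M w ↔ w ∈ PRIMES) (n j s r : ℕ) (hn : 200 ≤ n)
    (h1 : 2 * n ≤ 5 * j) (h2 : 5 * j ≤ 3 * n) (hs : ∀ p ∈ np n, (visited M (enc p)).encard ≤ s) :
    (((np n).filter (fun p => (sig M j p).length ≤ r)).card : ℝ) ≤
      ((base M : ℝ) ^ (s + 1)) ^ r * (2 : ℝ) ^ ((9 : ℝ) / 10 * n + 9) := by
  set G := (np n).filter (fun p => (sig M j p).length ≤ r) with hG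
  obtain ⟨hfin, hcard⟩ := seqs_finite_card M s r
  have himg : ((G.image (sig M j) : Finset (List (Mem M))) : Set (List (Mem M))) ⊆
      seqs M s r := by
    intro l hl
    simp only [coe_image, Set.mem_image, mem_coe] at hl
    obtain ⟨p, hp, rfl⟩ := hl
    obtain ⟨hp1, hp2⟩ := mem_filter.1 hp
    refine ⟨hp2, fun m hm => ?_⟩
    obtain ⟨t, rfl⟩ := cs_mem M _ _ _ _ hm
    exact mem_memSet M (hs p hp1) t
  have hc1 : (G.image (sig M j)).card ≤ (base M ^ (s + 1)) ^ r := by
    have h3 := Set.ncard_le_ncard himg hfin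
    rw [Set.ncard_coe_finset] at h3
    exact h3.trans hcard
  have hc2 : (G.card : ℝ) = ∑ σ ∈ G.image (sig M j), ((G.filter (fun p => sig M j p = σ)).card : ℝ) := by
    have := Finset.card_eq_sum_card_fiberwise (f := sig M j) (s := G) (t := G.image (sig M j))
      (fun a ha => Finset.mem_image_of_mem _ ha)
    exact_mod_cast this
  rw [hc2]
  have hc3 : ∀ σ ∈ G.image (sig M j), ((G.filter (fun p => sig M j p = σ)).card : ℝ) ≤
      (2 : ℝ) ^ ((9 : ℝ) / 10 * n + 9) := by
    intro σ _
    refine le_trans ?_ (fiber M hM n j hn h1 h2 σ)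
    exact_mod_cast Finset.card_le_card (Finset.filter_subset_filter _ (Finset.filter_subset _ _))
  refine (Finset.sum_le_sum hc3).trans ?_
  rw [Finset.sum_const, nsmul_eq_mul]
  apply mul_le_mul_of_nonneg_right _ (by positivity)
  exact_mod_cast hc1

/-- The constant. -/
noncomputable def c0 : ℝ := 1 / (40 * Real.logb 2 (base M))

theorem logb_base_pos : 1 ≤ Real.logb 2 (base M) := by
  rw [Real.le_logb_iff_rpow_le (by norm_num) (by have := two_le_base M; positivity)]
  simp only [Real.rpow_one]
  exact_mod_cast two_le_base M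

theorem c0_pos : 0 < c0 M := by
  have := logb_base_pos M
  unfold c0
  positivity

open Classical in
/-- Most primes have many crossings. -/
theorem most (hM : ∀ w, Accepts M w ↔ w ∈ PRIMES) :
    ∃ n₁ : ℕ, ∀ n ≥ n₁, 0 < (np n).card ∧ ∀ j s r : ℕ, 2 * n ≤ 5 * j → 5 * j ≤ 3 * n →
      (∀ p ∈ np n, (visited M (enc p)).encard ≤ s) → ((s : ℝ) + 1) * r ≤ c0 M * n →
      2 * ((np n).filter (fun p => (sig M j p).length ≤ r)).card ≤ (np n).card := by
  obtain ⟨n₀, hn₀⟩ := many_primes
  refine ⟨max n₀ 400, fun n hn => ?_⟩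
  have hnn : n₀ ≤ n := le_trans (le_max_left _ _) hn
  have hn4 : 400 ≤ n := le_trans (le_max_right _ _) hn
  have hmany := hn₀ n hnn
  have hn4' : (400 : ℝ) ≤ n := by exact_mod_cast hn4
  refine ⟨?_, ?_⟩
  · have : (0 : ℝ) < (np n).card := lt_of_lt_of_le (by positivity) hmany
    exact_mod_cast this
  · intro j s r h1 h2 hs hc
    have hf := few M hM n j s r (by omega) h1 h2 hs
    have hb := logb_base_pos M
    have hbase : ((base M : ℝ) ^ (s + 1)) ^ r = (2 : ℝ) ^ (((s : ℝ) + 1) * r * Real.logb 2 (base M)) := by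
      have hbp : (0 : ℝ) < base M := by
        have := two_le_base M
        positivity
      rw [mul_comm, Real.rpow_mul (by norm_num), Real.rpow_logb (by norm_num) (by norm_num) hbp,
        ← pow_mul, ← Real.rpow_natCast]
      push_cast
      rfl
    have h3 : (((s : ℝ) + 1) * r) * Real.logb 2 (base M) ≤ n / 40 := by
      calc (((s : ℝ) + 1) * r) * Real.logb 2 (base M) ≤ (c0 M * n) * Real.logb 2 (base M) :=
            mul_le_mul_of_nonneg_right hc (by linarith)
        _ = n / 40 := by
            unfold c0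
            field_simp
    have h4 : ((base M : ℝ) ^ (s + 1)) ^ r ≤ (2 : ℝ) ^ ((n : ℝ) / 40) := by
      rw [hbase]
      exact Real.rpow_le_rpow_of_exponent_le (by norm_num) h3
    have h5 : (((np n).filter (fun p => (sig M j p).length ≤ r)).card : ℝ) ≤
        (2 : ℝ) ^ ((n : ℝ) / 40 + ((9 : ℝ) / 10 * n + 9)) := by
      rw [Real.rpow_add (by norm_num)]
      exact hf.trans (mul_le_mul_of_nonneg_right h4 (by positivity))
    have h6 : 2 * (2 : ℝ) ^ ((n : ℝ) / 40 + ((9 : ℝ) / 10 * n + 9)) ≤
        (2 : ℝ) ^ ((19 : ℝ) / 20 * n) := by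
      have e : 2 * (2 : ℝ) ^ ((n : ℝ) / 40 + ((9 : ℝ) / 10 * n + 9)) =
          (2 : ℝ) ^ (1 + ((n : ℝ) / 40 + ((9 : ℝ) / 10 * n + 9))) := by
        rw [Real.rpow_add (by norm_num) 1, Real.rpow_one]
      rw [e]
      apply Real.rpow_le_rpow_of_exponent_le (by norm_num)
      linarith
    have h7 : (2 : ℝ) * (((np n).filter (fun p => (sig M j p).length ≤ r)).card : ℝ) ≤
        (np n).card := by linarith
    exact_mod_cast h7

theorem visited_le {n s : ℕ} (h : space M n ≤ s) {w : List Bool} (hw : w.length = n) :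
    (visited M w).encard ≤ s :=
  le_trans (le_iSup (fun w : {w : List Bool // w.length = n} => (visited M w.1).encard) ⟨w, hw⟩) h

theorem running_le {n T : ℕ} (h : time M n ≤ T) {w : List Bool} (hw : w.length = n) :
    (running M w).encard ≤ T :=
  le_trans (le_iSup (fun w : {w : List Bool // w.length = n} => (running M w.1).encard) ⟨w, hw⟩) h

theorem reversal_le {n R : ℕ} (h : reversals M n ≤ R) {w : List Bool} (hw : w.length = n) :
    (reversalTimes M w).encard ≤ R :=
  le_trans (le_iSup (fun w : {w : List Bool // w.length = n} =>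
    (reversalTimes M w.1).encard) ⟨w, hw⟩) h

theorem enc_len_of_mem {n p : ℕ} (hn : 1 ≤ n) (hp : p ∈ np n) : (enc p).length = n :=
  enc_length hn (mem_np.1 hp).1 (mem_np.1 hp).2.1

/-- Reversal-space trade-off for large `n`. -/
theorem reversal_space (hM : ∀ w, Accepts M w ↔ w ∈ PRIMES) :
    ∃ n₁ : ℕ, ∀ n ≥ n₁, ∀ R S : ℕ, reversals M n ≤ R → space M n ≤ S →
      c0 M * n ≤ ((R : ℝ) + 1) * (S + 1) := by
  classical
  obtain ⟨n₁, hn₁⟩ := most M hM
  refine ⟨max n₁ 5, fun n hn R S hR hS => ?_⟩
  obtain ⟨hpos, hm⟩ := hn₁ n (le_trans (le_max_left _ _) hn)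
  have hn5 : 5 ≤ n := le_trans (le_max_right _ _) hn
  by_contra hcon
  push Not at hcon
  have h1 := hm (n / 2) S (R + 1) (by omega) (by omega)
    (fun p hp => visited_le M hS (enc_len_of_mem (by omega) hp)) (by push_cast; linarith)
  have h2 : (np n).filter (fun p => (sig M (n / 2) p).length ≤ R + 1) = np n := by
    apply Finset.filter_true_of_mem
    intro p hp
    exact cross_le_rev M _ _ _ _ (reversal_le M hR (enc_len_of_mem (by omega) hp))
  rw [h2] at h1
  omega

/-- Time-space trade-off for large `n`. -/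
theorem time_space (hM : ∀ w, Accepts M w ↔ w ∈ PRIMES) :
    ∃ n₁ : ℕ, ∀ n ≥ n₁, ∀ T S : ℕ, time M n ≤ T → space M n ≤ S →
      c0 M / 20 * (n : ℝ) ^ 2 ≤ (T : ℝ) * (S + 1) := by
  classical
  obtain ⟨n₁, hn₁⟩ := most M hM
  refine ⟨max n₁ 20, fun n hn T S hT hS => ?_⟩
  obtain ⟨hpos, hm⟩ := hn₁ n (le_trans (le_max_left _ _) hn)
  have hn20 : 20 ≤ n := le_trans (le_max_right _ _) hn
  have hc := c0_pos M
  set r : ℕ := ⌊c0 M * n / (S + 1)⌋₊ with hr
  have hr1 : (r : ℝ) ≤ c0 M * n / (S + 1) := Nat.floor_le (by positivity)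
  have hr2 : c0 M * n / (S + 1) < r + 1 := Nat.lt_floor_add_one _
  have hr3 : ((S : ℝ) + 1) * r ≤ c0 M * n := by
    rw [le_div_iff₀ (by positivity)] at hr1
    linarith
  set J : Finset ℕ := (Finset.range (n + 1)).filter (fun j => 2 * n ≤ 5 * j ∧ 5 * j ≤ 3 * n)
    with hJ
  -- for each boundary in `J`, half of the primes have more than `r` crossings
  have hhalf : ∀ j ∈ J, (np n).card * (r + 1) ≤ 2 * ∑ p ∈ np n, (sig M j p).length := by
    intro j hj
    obtain ⟨-, hj1, hj2⟩ := mem_filter.1 hj
    have h1 := hm j S r hj1 hj2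
      (fun p hp => visited_le M hS (enc_len_of_mem (by omega) hp)) hr3
    have h2 := Finset.card_filter_add_card_filter_not (s := np n)
      (fun p => (sig M j p).length ≤ r)
    have h3 : ((np n).filter (fun p => ¬ (sig M j p).length ≤ r)).card * (r + 1) ≤
        ∑ p ∈ np n, (sig M j p).length := by
      calc ((np n).filter (fun p => ¬ (sig M j p).length ≤ r)).card * (r + 1)
          = ∑ p ∈ (np n).filter (fun p => ¬ (sig M j p).length ≤ r), (r + 1) := by
            rw [Finset.sum_const, smul_eq_mul]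
        _ ≤ ∑ p ∈ (np n).filter (fun p => ¬ (sig M j p).length ≤ r), (sig M j p).length := by
            apply Finset.sum_le_sum
            intro p hp
            have := (mem_filter.1 hp).2
            omega
        _ ≤ _ := Finset.sum_le_sum_of_subset (Finset.filter_subset _ _)
    nlinarith
  have hsum : J.card * ((np n).card * (r + 1)) ≤ 2 * ((np n).card * T) := by
    calc J.card * ((np n).card * (r + 1)) = ∑ j ∈ J, (np n).card * (r + 1) := by
          rw [Finset.sum_const, smul_eq_mul]
      _ ≤ ∑ j ∈ J, 2 * ∑ p ∈ np n, (sig M j p).length := Finset.sum_le_sum hhalf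
      _ = 2 * ∑ p ∈ np n, ∑ j ∈ J, (sig M j p).length := by
          rw [← Finset.mul_sum, Finset.sum_comm]
      _ ≤ 2 * ∑ p ∈ np n, T := by
          apply Nat.mul_le_mul_left
          apply Finset.sum_le_sum
          intro p hp
          exact sum_cross_le M (enc p) J _ T (running_le M hT (enc_len_of_mem (by omega) hp))
      _ = 2 * ((np n).card * T) := by rw [Finset.sum_const, smul_eq_mul]
  have hsum' : J.card * (r + 1) ≤ 2 * T := by
    have : (np n).card * (J.card * (r + 1)) ≤ (np n).card * (2 * T) := by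
      calc _ = J.card * ((np n).card * (r + 1)) := by ring
        _ ≤ _ := hsum
        _ = _ := by ring
    exact Nat.le_of_mul_le_mul_left this hpos
  -- the size of `J`
  have hJc : n ≤ 10 * J.card := by
    have hsub : (Finset.Icc ((2 * n + 4) / 5) (3 * n / 5)) ⊆ J := by
      intro j hj
      rw [mem_Icc] at hj
      rw [hJ, mem_filter, mem_range]
      omega
    have := Finset.card_le_card hsub
    rw [Nat.card_Icc] at this
    omega
  have hJc' : (n : ℝ) ≤ 10 * J.card := by exact_mod_cast hJc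
  have hsum'' : (J.card : ℝ) * (r + 1) ≤ 2 * T := by exact_mod_cast hsum'
  have hS0 : (0 : ℝ) < S + 1 := by positivity
  have h8 : c0 M * n ≤ (r + 1) * (S + 1) := by
    rw [div_lt_iff₀ hS0] at hr2
    exact hr2.le
  have h9 : (n : ℝ) * (r + 1) ≤ 20 * T := by
    have : (n : ℝ) * (r + 1) ≤ (10 * J.card) * (r + 1) :=
      mul_le_mul_of_nonneg_right hJc' (by positivity)
    linarith
  have hn0 : (0 : ℝ) ≤ n := by positivity
  calc c0 M / 20 * (n : ℝ) ^ 2 = (n * (c0 M * n)) / 20 := by ring
    _ ≤ (n * ((r + 1) * (S + 1))) / 20 := by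
        apply div_le_div_of_nonneg_right _ (by norm_num)
        exact mul_le_mul_of_nonneg_left h8 hn0
    _ = (n * (r + 1)) * (S + 1) / 20 := by ring
    _ ≤ (20 * T) * (S + 1) / 20 := by
        apply div_le_div_of_nonneg_right _ (by norm_num)
        exact mul_le_mul_of_nonneg_right h9 hS0.le
    _ = T * (S + 1) := by ring

end Pool.Agent.MP_5082c5_lc
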