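import Pool.Agent.MP_5082c5_lc.Sieve

/-!
# MP_5082c5_lc: all-prime rectangles are small
-/

namespace Pool.Agent.MP_5082c5_lc

open Finset Real

/-- If all `x * 2^b + y`, `x ∈ A`, `y ∈ B`, are primes larger than `p`, then `A` and `B` together
occupy at most `p` residue classes modulo the odd prime `p`. -/
theorem residues (p : ℕ) (hp : p.Prime) (hp2 : p ≠ 2) (b : ℕ) (A B : Finset ℕ)
    (h : ∀ x ∈ A, ∀ y ∈ B, ¬ p ∣ x * 2 ^ b + y) :
    (A.image (fun a : ℕ => a % p)).card + (B.image (fun a : ℕ => a % p)).card ≤ p := by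
  classical
  have : Fact p.Prime := ⟨hp⟩
  have h2 : (2 : ZMod p) ≠ 0 := by
    intro h0
    have h1 : ((2 : ℕ) : ZMod p) = 0 := by exact_mod_cast h0
    rw [ZMod.natCast_eq_zero_iff] at h1
    exact hp2 ((Nat.prime_dvd_prime_iff_eq hp Nat.prime_two).1 h1)
  have cast_mod : ∀ x : ℕ, ((x % p : ℕ) : ZMod p) = (x : ZMod p) := fun x => by
    simp
  have hinj : ∀ x y : ℕ, x < p → y < p → (x : ZMod p) = (y : ZMod p) → x = y := by
    intro x y hx hy hxy
    have := (ZMod.natCast_eq_natCast_iff' x y p).1 hxy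
    rwa [Nat.mod_eq_of_lt hx, Nat.mod_eq_of_lt hy] at this
  have e1 : (A.image (fun a : ℕ => a % p)).card =
      (A.image (fun x : ℕ => -((x : ZMod p) * 2 ^ b))).card := by
    have : A.image (fun x : ℕ => -((x : ZMod p) * 2 ^ b)) =
        (A.image (fun a : ℕ => a % p)).image (fun x : ℕ => -((x : ZMod p) * 2 ^ b)) := by
      rw [Finset.image_image]
      refine Finset.image_congr fun x _ => ?_
      simp
    rw [this]
    symm
    apply Finset.card_image_of_injOn
    intro x hx y hy hxy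
    simp only [coe_image, Set.mem_image, mem_coe] at hx hy
    obtain ⟨x', -, rfl⟩ := hx
    obtain ⟨y', -, rfl⟩ := hy
    simp only [neg_inj] at hxy
    have h3 : (2 : ZMod p) ^ b ≠ 0 := pow_ne_zero _ h2
    have h4 := mul_right_cancel₀ h3 hxy
    exact hinj _ _ (Nat.mod_lt _ hp.pos) (Nat.mod_lt _ hp.pos) h4
  have e2 : (B.image (fun a : ℕ => a % p)).card =
      (B.image (fun x : ℕ => (x : ZMod p))).card := by
    have : B.image (fun x : ℕ => (x : ZMod p)) =
        (B.image (fun a : ℕ => a % p)).image (fun x : ℕ => (x : ZMod p)) := by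
      rw [Finset.image_image]
      refine Finset.image_congr fun x _ => ?_
      simp
    rw [this]
    symm
    apply Finset.card_image_of_injOn
    intro x hx y hy hxy
    simp only [coe_image, Set.mem_image, mem_coe] at hx hy
    obtain ⟨x', -, rfl⟩ := hx
    obtain ⟨y', -, rfl⟩ := hy
    exact hinj _ _ (Nat.mod_lt _ hp.pos) (Nat.mod_lt _ hp.pos) hxy
  rw [e1, e2, ← Finset.card_union_of_disjoint]
  · refine (Finset.card_le_univ _).trans ?_
    rw [ZMod.card]
  · rw [Finset.disjoint_left]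
    intro z hz hz'
    simp only [mem_image] at hz hz'
    obtain ⟨x, hx, rfl⟩ := hz
    obtain ⟨y, hy, hxy⟩ := hz'
    apply h x hx y hy
    rw [← ZMod.natCast_eq_zero_iff]
    push_cast
    rw [hxy]
    ring

/-- All-prime rectangles are small on one side. -/
theorem rect_small (a b e : ℕ) (A B : Finset ℕ) (hA : ∀ x ∈ A, 1 ≤ x ∧ x < 2 ^ a)
    (hB : ∀ y ∈ B, y < 2 ^ b) (hprime : ∀ x ∈ A, ∀ y ∈ B, (x * 2 ^ b + y).Prime)
    (he : max a b + 14 ≤ 2 * e) (heb : e < b) :
    A.card ≤ 2 * 2 ^ e ∨ B.card ≤ 2 * 2 ^ e := by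
  classical
  rcases A.eq_empty_or_nonempty with rfl | hAne
  · left; simp
  rcases B.eq_empty_or_nonempty with rfl | hBne
  · right; simp
  set z : ℕ := 2 ^ e with hz
  set L : ℕ := max a b with hL
  set P : Finset ℕ := (pr z).filter (· ≠ 2) with hP
  have hPp : ∀ p ∈ P, p.Prime := fun p hp => (mem_pr.1 (mem_filter.1 hp).1).2
  have hPz : ∀ p ∈ P, p ≤ z := fun p hp => (mem_pr.1 (mem_filter.1 hp).1).1
  have hz0 : z ≠ 0 := by positivity
  have hm := mertens z hz0
  have hzb : z < 2 ^ b := Nat.pow_lt_pow_right (by norm_num) heb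
  have hlogz : Real.log z = e * Real.log 2 := by
    rw [hz]; push_cast; rw [Real.log_pow]
  have hlog2 := Real.log_two_gt_d9
  have hPsum : ∑ p ∈ P, Real.log (p : ℝ) ≤ 2 * z := by
    refine le_trans ?_ (theta_le z)
    exact Finset.sum_le_sum_of_subset_of_nonneg (Finset.filter_subset _ _)
      fun p _ _ => Real.log_natCast_nonneg p
  have hres : ∀ p ∈ P, (4 : ℝ) * (Real.log p / p) ≤
      Real.log p / ((A.image (fun a : ℕ => a % p)).card : ℝ) +
      Real.log p / ((B.image (fun a : ℕ => a % p)).card : ℝ) := by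
    intro p hp
    have hpp := hPp p hp
    have hp2 : p ≠ 2 := (mem_filter.1 hp).2
    have h1 := residues p hpp hp2 b A B (by
      intro x hx y hy hdvd
      have h2 := (Nat.prime_dvd_prime_iff_eq hpp (hprime x hx y hy)).1 hdvd
      have h3 := hPz p hp
      have h4 := (hA x hx).1
      have h5 : 2 ^ b ≤ x * 2 ^ b := Nat.le_mul_of_pos_left _ (by omega)
      omega)
    set u : ℝ := ((A.image (fun a : ℕ => a % p)).card : ℝ) with hu
    set v : ℝ := ((B.image (fun a : ℕ => a % p)).card : ℝ) with hv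
    have hu0 : 0 < u := by
      rw [hu]; exact_mod_cast Finset.card_pos.2 (hAne.image _)
    have hv0 : 0 < v := by
      rw [hv]; exact_mod_cast Finset.card_pos.2 (hBne.image _)
    have huv : u + v ≤ p := by rw [hu, hv]; exact_mod_cast h1
    have hp0 : (0 : ℝ) < p := by exact_mod_cast hpp.pos
    have hlp : 0 ≤ Real.log (p : ℝ) := Real.log_natCast_nonneg p
    have key : (4 : ℝ) * (1 / p) ≤ 1 / u + 1 / v := by
      have h6 : (4 : ℝ) * (1 / p) ≤ 4 * (1 / (u + v)) := by
        have : (1 : ℝ) / p ≤ 1 / (u + v) := one_div_le_one_div_of_le (by positivity) huv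
        linarith
      refine h6.trans ?_
      rw [div_add_div _ _ hu0.ne' hv0.ne', mul_one_div, div_le_div_iff₀ (by positivity)
        (by positivity)]
      nlinarith [sq_nonneg (u - v)]
    calc (4 : ℝ) * (Real.log p / p) = Real.log p * (4 * (1 / p)) := by ring
      _ ≤ Real.log p * (1 / u + 1 / v) := mul_le_mul_of_nonneg_left key hlp
      _ = Real.log p / u + Real.log p / v := by ring
  have hsum : (4 : ℝ) * (e * Real.log 2 - 4) ≤
      ∑ p ∈ P, Real.log p / ((A.image (fun a : ℕ => a % p)).card : ℝ) +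
      ∑ p ∈ P, Real.log p / ((B.image (fun a : ℕ => a % p)).card : ℝ) := by
    rw [← Finset.sum_add_distrib]
    refine le_trans ?_ (Finset.sum_le_sum hres)
    rw [← Finset.mul_sum]
    rw [hlogz] at hm
    linarith
  have hLe : (L : ℝ) + 14 ≤ 2 * e := by exact_mod_cast he
  by_cases hcase : (L : ℝ) * Real.log 2 + 1 ≤
      ∑ p ∈ P, Real.log p / ((A.image (fun a : ℕ => a % p)).card : ℝ)
  · left
    have := larger_sieve A P hPp L (fun x hx => lt_of_lt_of_le (hA x hx).2
      (Nat.pow_le_pow_right (by norm_num) (le_max_left a b))) hcase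
    exact_mod_cast this.trans hPsum
  · right
    push Not at hcase
    have h2 : (L : ℝ) * Real.log 2 + 1 ≤
        ∑ p ∈ P, Real.log p / ((B.image (fun a : ℕ => a % p)).card : ℝ) := by
      nlinarith
    have := larger_sieve B P hPp L (fun x hx => lt_of_lt_of_le (hB x hx)
      (Nat.pow_le_pow_right (by norm_num) (le_max_right a b))) h2
    exact_mod_cast this.trans hPsum

/-- Size of an all-prime rectangle. -/
theorem rect_card (n a b : ℕ) (hn : 200 ≤ n) (hab : a + b = n) (ha : 5 * a ≤ 3 * n)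
    (hb : 5 * b ≤ 3 * n) (A B : Finset ℕ) (hA : ∀ x ∈ A, 1 ≤ x ∧ x < 2 ^ a)
    (hB : ∀ y ∈ B, y < 2 ^ b) (hprime : ∀ x ∈ A, ∀ y ∈ B, (x * 2 ^ b + y).Prime) :
    ((A.card * B.card : ℕ) : ℝ) ≤ (2 : ℝ) ^ ((9 : ℝ) / 10 * n + 9) := by
  have hAc : A.card ≤ 2 ^ a := by
    calc A.card ≤ (Finset.range (2 ^ a)).card :=
          Finset.card_le_card fun x hx => Finset.mem_range.2 (hA x hx).2
      _ = 2 ^ a := Finset.card_range _
  have hBc : B.card ≤ 2 ^ b := by
    calc B.card ≤ (Finset.range (2 ^ b)).card :=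
          Finset.card_le_card fun x hx => Finset.mem_range.2 (hB x hx)
      _ = 2 ^ b := Finset.card_range _
  obtain ⟨e, he1, he2⟩ : ∃ e, max a b + 14 ≤ 2 * e ∧ 2 * e ≤ max a b + 15 :=
    ⟨(max a b + 15) / 2, by omega, by omega⟩
  have hL : 5 * max a b ≤ 3 * n := by
    rcases max_choice a b with h | h <;> rw [h] <;> assumption
  have heb : e < b := by omega
  have hpow : ∀ c : ℕ, 5 * c ≤ 3 * n → ((2 ^ c * (2 * 2 ^ e) : ℕ) : ℝ) ≤
      (2 : ℝ) ^ ((9 : ℝ) / 10 * n + 9) := by
    intro c hc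
    have e1 : ((2 ^ c * (2 * 2 ^ e) : ℕ) : ℝ) = (2 : ℝ) ^ ((c + (1 + e) : ℕ) : ℝ) := by
      rw [Real.rpow_natCast]; push_cast; ring
    rw [e1]
    apply Real.rpow_le_rpow_of_exponent_le (by norm_num)
    have h1 : (5 : ℝ) * c ≤ 3 * n := by exact_mod_cast hc
    have h2 : (2 : ℝ) * e ≤ (max a b : ℕ) + 15 := by exact_mod_cast he2
    have h3 : (5 : ℝ) * (max a b : ℕ) ≤ 3 * n := by exact_mod_cast hL
    push_cast
    linarith
  rcases rect_small a b e A B hA hB hprime he1 heb with h | h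
  · have h1 : A.card * B.card ≤ 2 ^ b * (2 * 2 ^ e) := by
      calc A.card * B.card ≤ (2 * 2 ^ e) * 2 ^ b := Nat.mul_le_mul h hBc
        _ = _ := by ring
    exact le_trans (by exact_mod_cast h1) (hpow b hb)
  · have h1 : A.card * B.card ≤ 2 ^ a * (2 * 2 ^ e) := Nat.mul_le_mul hAc h
    exact le_trans (by exact_mod_cast h1) (hpow a ha)

end Pool.Agent.MP_5082c5_lc
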