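import Mathlib

/-!
# MP_5082c5_lc: elementary prime number estimates and the larger sieve
-/

namespace Pool.Agent.MP_5082c5_lc

open Finset Real

/-- The primes up to `n`. -/
def pr (n : ℕ) : Finset ℕ := (range (n + 1)).filter Nat.Prime

theorem mem_pr {n p : ℕ} : p ∈ pr n ↔ p ≤ n ∧ p.Prime := by
  simp [pr]

/-- Mertens' lower bound with the weights `log p / (p - 1)`. -/
theorem mertens_aux (n : ℕ) (hn : n ≠ 0) :
    Real.log n - 1 ≤ ∑ p ∈ pr n, Real.log p / ((p : ℝ) - 1) := by
  have hn0 : (0 : ℝ) < n := by positivity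
  have h1 : Real.log (n.factorial : ℝ) ≤ n * ∑ p ∈ pr n, Real.log p / ((p : ℝ) - 1) := by
    rw [Real.log_nat_eq_sum_factorization, Finsupp.sum, Finset.mul_sum]
    have hsub : (n.factorial.factorization).support ⊆ pr n := by
      intro p hp
      rw [Nat.support_factorization, Nat.mem_primeFactors] at hp
      exact mem_pr.2 ⟨(hp.1.dvd_factorial).1 hp.2.1, hp.1⟩
    refine (Finset.sum_le_sum_of_subset_of_nonneg hsub ?_).trans (Finset.sum_le_sum ?_)
    · intro p hp _
      have : 0 ≤ Real.log p := Real.log_natCast_nonneg p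
      positivity
    · intro p hp
      have hpp := (mem_pr.1 hp).2
      have h2 := Nat.sub_one_mul_factorization_factorial (n := n) hpp
      have h3 : (p - 1) * n.factorial.factorization p ≤ n := by rw [h2]; exact Nat.sub_le _ _
      have hp1 : (0 : ℝ) < (p : ℝ) - 1 := by
        have : (2 : ℝ) ≤ p := by exact_mod_cast hpp.two_le
        linarith
      have h4 : ((p : ℝ) - 1) * (n.factorial.factorization p : ℝ) ≤ n := by
        have h5 : ((p - 1 : ℕ) : ℝ) = (p : ℝ) - 1 := by
          rw [Nat.cast_sub hpp.one_lt.le]; simp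
        rw [← h5]
        exact_mod_cast h3
      have h6 : (n.factorial.factorization p : ℝ) ≤ n / ((p : ℝ) - 1) := by
        rw [le_div_iff₀ hp1]; linarith
      calc (n.factorial.factorization p : ℝ) * Real.log p
          ≤ (n / ((p : ℝ) - 1)) * Real.log p :=
            mul_le_mul_of_nonneg_right h6 (Real.log_natCast_nonneg p)
        _ = n * (Real.log p / ((p : ℝ) - 1)) := by ring
  have h2 := Stirling.le_log_factorial_stirling hn
  have h3 : (0 : ℝ) ≤ Real.log n := Real.log_natCast_nonneg n
  have h4 : (0 : ℝ) ≤ Real.log (2 * π) := by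
    apply Real.log_nonneg
    have := Real.pi_gt_three
    linarith
  have h5 : (n : ℝ) * (Real.log n - 1) ≤ n * ∑ p ∈ pr n, Real.log p / ((p : ℝ) - 1) := by
    nlinarith
  exact le_of_mul_le_mul_left h5 hn0

theorem tail_aux (M : ℕ) : ∑ m ∈ (range (M + 1)).filter (2 ≤ ·),
    Real.log m / ((m : ℝ) * (m - 1)) ≤ 2 - (if M = 0 then 2 else (Real.log M + 2) / M) := by
  induction M with
  | zero => simp [Finset.sum_filter]
  | succ M ih =>
    rw [Finset.range_add_one, Finset.filter_insert]
    by_cases h : 2 ≤ M + 1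
    · rw [if_pos h, Finset.sum_insert (by simp)]
      have hM : M ≠ 0 := by omega
      rw [if_neg hM] at ih
      rw [if_neg (by omega)]
      have hM1 : (1 : ℝ) ≤ M := by exact_mod_cast Nat.one_le_iff_ne_zero.2 hM
      have hM0 : (0 : ℝ) < M := by linarith
      push_cast
      -- key inequality
      have hlog : Real.log (M + 1 : ℝ) - Real.log M ≤ 1 / M := by
        rw [← Real.log_div (by positivity) (by positivity)]
        have := Real.log_le_sub_one_of_pos (x := ((M : ℝ) + 1) / M) (by positivity)
        have h2 : ((M : ℝ) + 1) / M - 1 = 1 / M := by field_simp; ring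
        linarith
      have key : Real.log (M + 1 : ℝ) / (((M : ℝ) + 1) * (M + 1 - 1)) ≤
          (Real.log M + 2) / M - (Real.log (M + 1) + 2) / (M + 1) := by
        rw [div_sub_div _ _ (by positivity) (by positivity)]
        have e1 : ((M : ℝ) + 1) * (M + 1 - 1) = M * (M + 1) := by ring
        rw [e1]
        apply div_le_div_of_nonneg_right _ (by positivity)
        have h3 : (M : ℝ) * (Real.log (M + 1) - Real.log M) ≤ 1 := by
          calc (M : ℝ) * (Real.log (M + 1) - Real.log M) ≤ M * (1 / M) :=
                mul_le_mul_of_nonneg_left hlog hM0.le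
            _ = 1 := by field_simp
        have h4 : Real.log (M + 1 : ℝ) ≤ Real.log M + 1 := by
          have : (1 : ℝ) / M ≤ 1 := by
            rw [div_le_one hM0]; exact hM1
          linarith
        nlinarith
      linarith
    · have hM : M = 0 := by omega
      subst hM
      simp [Finset.sum_filter]

/-- Mertens' lower bound. -/
theorem mertens (n : ℕ) (hn : n ≠ 0) :
    Real.log n - 4 ≤ ∑ p ∈ (pr n).filter (· ≠ 2), Real.log p / (p : ℝ) := by
  have h1 := mertens_aux n hn
  have h2 := tail_aux n
  rw [if_neg hn] at h2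
  have h3 : ∑ p ∈ pr n, Real.log p / ((p : ℝ) - 1) =
      ∑ p ∈ pr n, Real.log p / (p : ℝ) + ∑ p ∈ pr n, Real.log p / ((p : ℝ) * (p - 1)) := by
    rw [← Finset.sum_add_distrib]
    refine Finset.sum_congr rfl fun p hp => ?_
    have hp2 : (2 : ℝ) ≤ p := by exact_mod_cast (mem_pr.1 hp).2.two_le
    have : (p : ℝ) - 1 ≠ 0 := by linarith
    have : (p : ℝ) ≠ 0 := by linarith
    field_simp
    ring
  have h4 : ∑ p ∈ pr n, Real.log p / ((p : ℝ) * (p - 1)) ≤
      ∑ m ∈ (range (n + 1)).filter (2 ≤ ·), Real.log m / ((m : ℝ) * (m - 1)) := by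
    apply Finset.sum_le_sum_of_subset_of_nonneg
    · intro p hp
      have := mem_pr.1 hp
      simp only [mem_filter, mem_range]
      exact ⟨by omega, this.2.two_le⟩
    · intro m hm _
      have hm2 : (2 : ℝ) ≤ m := by exact_mod_cast (mem_filter.1 hm).2
      have : 0 ≤ Real.log m := Real.log_natCast_nonneg m
      have : (0 : ℝ) ≤ (m : ℝ) - 1 := by linarith
      positivity
  have h5 : (0 : ℝ) ≤ (Real.log n + 2) / n := by
    have := Real.log_natCast_nonneg n
    positivity
  have h6 : ∑ p ∈ pr n, Real.log p / (p : ℝ) ≤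
      ∑ p ∈ (pr n).filter (· ≠ 2), Real.log p / (p : ℝ) + 1 := by
    rw [← Finset.sum_filter_add_sum_filter_not (pr n) (· ≠ 2)]
    gcongr
    have h7 : (pr n).filter (fun x => ¬ x ≠ 2) ⊆ {2} := by
      intro x hx
      simp only [ne_eq, not_not, mem_filter] at hx
      simp [hx.2]
    refine (Finset.sum_le_sum_of_subset_of_nonneg h7 ?_).trans ?_
    · intro i hi _
      simp only [mem_singleton] at hi
      subst hi
      have : 0 ≤ Real.log ((2 : ℕ) : ℝ) := Real.log_natCast_nonneg 2
      positivity
    · simp only [sum_singleton]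
      have := Real.log_two_lt_d9
      push_cast
      linarith
  linarith

/-- The larger sieve (Gallagher). -/
theorem larger_sieve (A : Finset ℕ) (P : Finset ℕ) (hP : ∀ p ∈ P, p.Prime) (L : ℕ)
    (hA : ∀ a ∈ A, a < 2 ^ L)
    (h : (L : ℝ) * Real.log 2 + 1 ≤
      ∑ p ∈ P, Real.log p / ((A.image (fun a : ℕ => a % p)).card : ℝ)) :
    (A.card : ℝ) ≤ ∑ p ∈ P, Real.log p := by
  classical
  rcases A.eq_empty_or_nonempty with rfl | hne
  · simp only [card_empty, Nat.cast_zero]
    exact Finset.sum_nonneg fun p _ => Real.log_natCast_nonneg p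
  have hApos : (0 : ℝ) < A.card := by exact_mod_cast Finset.card_pos.2 hne
  -- pairs congruent modulo `p`
  set E : ℕ → Finset (ℕ × ℕ) := fun p => (A ×ˢ A).filter (fun q => q.1 % p = q.2 % p) with hE
  have hEcard : ∀ p, (A.card : ℝ) ^ 2 / ((A.image (fun a : ℕ => a % p)).card : ℝ) ≤
      (E p).card := by
    intro p
    set R := A.image (fun a : ℕ => a % p) with hR
    have hRpos : (0 : ℝ) < R.card := by
      exact_mod_cast Finset.card_pos.2 (hne.image _)
    rw [div_le_iff₀ hRpos]
    have h1 : (A.card : ℝ) = ∑ r ∈ R, ((A.filter (fun a => a % p = r)).card : ℝ) := by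
      have := Finset.card_eq_sum_card_fiberwise (f := fun a : ℕ => a % p) (s := A) (t := R)
        (fun a ha => Finset.mem_image_of_mem _ ha)
      exact_mod_cast this
    have h2 : ((E p).card : ℝ) = ∑ r ∈ R, ((A.filter (fun a => a % p = r)).card : ℝ) ^ 2 := by
      have h3 := Finset.card_eq_sum_card_fiberwise (f := fun q : ℕ × ℕ => q.1 % p) (s := E p)
        (t := R) (fun q hq => by
          simp only [hE, coe_filter, mem_product, Set.mem_ofPred_eq] at hq
          exact Finset.mem_image_of_mem _ hq.1.1)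
      rw [h3]
      push_cast
      refine Finset.sum_congr rfl fun r _ => ?_
      have h4 : (E p).filter (fun q => q.1 % p = r) =
          (A.filter (fun a => a % p = r)) ×ˢ (A.filter (fun a => a % p = r)) := by
        ext ⟨x, y⟩
        simp only [hE, mem_filter, mem_product]
        constructor
        · rintro ⟨⟨⟨hx, hy⟩, hxy⟩, hxr⟩
          exact ⟨⟨hx, hxr⟩, ⟨hy, by rw [← hxy]; exact hxr⟩⟩
        · rintro ⟨⟨hx, hxr⟩, ⟨hy, hyr⟩⟩
          exact ⟨⟨⟨hx, hy⟩, by rw [hxr, hyr]⟩, hxr⟩
      rw [h4, Finset.card_product]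
      push_cast
      ring
    rw [h1, h2]
    have := sq_sum_le_card_mul_sum_sq (s := R)
      (f := fun r => ((A.filter (fun a => a % p = r)).card : ℝ))
    linarith
  -- upper bound for the weighted number of pairs
  have hlog2 : 0 ≤ (L : ℝ) * Real.log 2 := by
    have := Real.log_pos (one_lt_two); positivity
  have hup : ∑ p ∈ P, Real.log p * ((E p).card : ℝ) ≤
      A.card * ∑ p ∈ P, Real.log p + (A.card : ℝ) ^ 2 * (L * Real.log 2) := by
    have h1 : ∀ p ∈ P, Real.log p * ((E p).card : ℝ) =
        ∑ q ∈ A ×ˢ A, if q.1 % p = q.2 % p then Real.log p else 0 := by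
      intro p _
      rw [← Finset.sum_filter, Finset.sum_const, nsmul_eq_mul, mul_comm]
    rw [Finset.sum_congr rfl h1, Finset.sum_comm]
    have h2 : ∀ q ∈ A ×ˢ A, (∑ p ∈ P, if q.1 % p = q.2 % p then Real.log p else 0) ≤
        (if q.1 = q.2 then ∑ p ∈ P, Real.log p else 0) + L * Real.log 2 := by
      rintro ⟨x, y⟩ hq
      simp only [mem_product] at hq
      by_cases hxy : x = y
      · subst hxy
        simp only [if_true]
        linarith
      · simp only [hxy, if_false, zero_add]
        rw [← Finset.sum_filter]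
        set P' := P.filter (fun p => x % p = y % p) with hP'
        -- the product of these primes divides the difference
        have hprime : ∀ p ∈ P', p.Prime := fun p hp => hP p (mem_filter.1 hp).1
        have hdvd : ∀ p ∈ P', (p : ℤ) ∣ ((x : ℤ) - y) := by
          intro p hp
          have h3 : x % p = y % p := (mem_filter.1 hp).2
          have h4 : x ≡ y [MOD p] := h3
          have := (Nat.modEq_iff_dvd.1 h4.symm)
          simpa using this
        have hd : (∏ p ∈ P', p) ∣ ((x : ℤ) - y).natAbs := by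
          apply Finset.prod_primes_dvd
          · intro p hp; exact (hprime p hp).prime
          · intro p hp
            have := Int.natAbs_dvd_natAbs.2 (hdvd p hp)
            simpa using this
        have hne0 : ((x : ℤ) - y).natAbs ≠ 0 := by
          intro h0
          rw [Int.natAbs_eq_zero, sub_eq_zero] at h0
          exact hxy (by exact_mod_cast h0)
        have hlt : ((x : ℤ) - y).natAbs < 2 ^ L := by
          have hx := hA x hq.1
          have hy := hA y hq.2
          omega
        have hle : (∏ p ∈ P', p) ≤ 2 ^ L :=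
          (Nat.le_of_dvd (Nat.pos_of_ne_zero hne0) hd).trans hlt.le
        have h5 : ∑ p ∈ P', Real.log p = Real.log ((∏ p ∈ P', p : ℕ) : ℝ) := by
          push_cast
          rw [Real.log_prod]
          intro p hp
          have := (hprime p hp).pos
          positivity
        rw [h5]
        have h6 : (0 : ℝ) < ((∏ p ∈ P', p : ℕ) : ℝ) := by
          exact_mod_cast Finset.prod_pos fun p hp => (hprime p hp).pos
        calc Real.log ((∏ p ∈ P', p : ℕ) : ℝ) ≤ Real.log ((2 : ℝ) ^ L) := by
              apply Real.log_le_log h6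
              exact_mod_cast hle
          _ = L * Real.log 2 := by rw [Real.log_pow]
    refine (Finset.sum_le_sum h2).trans ?_
    rw [Finset.sum_add_distrib, Finset.sum_const, nsmul_eq_mul, Finset.card_product,
      Finset.sum_product]
    have h7 : ∑ x ∈ A, ∑ y ∈ A, (if (x, y).1 = (x, y).2 then ∑ p ∈ P, Real.log (p : ℝ) else 0) =
        A.card * ∑ p ∈ P, Real.log p := by
      simp only
      rw [Finset.sum_congr rfl (g := fun _ => ∑ p ∈ P, Real.log (p : ℝ))]
      · rw [Finset.sum_const, nsmul_eq_mul]
      · intro x hx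
        rw [Finset.sum_ite_eq]
        simp [hx]
    rw [h7]
    push_cast
    nlinarith
  have hlow : (A.card : ℝ) ^ 2 * (L * Real.log 2 + 1) ≤ ∑ p ∈ P, Real.log p * ((E p).card : ℝ) := by
    calc (A.card : ℝ) ^ 2 * (L * Real.log 2 + 1)
        ≤ (A.card : ℝ) ^ 2 * ∑ p ∈ P, Real.log p / ((A.image (fun a : ℕ => a % p)).card : ℝ) :=
          mul_le_mul_of_nonneg_left h (by positivity)
      _ = ∑ p ∈ P, Real.log p *
            ((A.card : ℝ) ^ 2 / ((A.image (fun a : ℕ => a % p)).card : ℝ)) := by
          rw [Finset.mul_sum]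
          refine Finset.sum_congr rfl fun p _ => ?_
          ring
      _ ≤ _ := Finset.sum_le_sum fun p _ =>
          mul_le_mul_of_nonneg_left (hEcard p) (Real.log_natCast_nonneg p)
  have hfin : (A.card : ℝ) * A.card ≤ A.card * ∑ p ∈ P, Real.log p := by nlinarith
  exact le_of_mul_le_mul_left hfin hApos

/-- `∑_{p ≤ z} log p ≤ 2 z`. -/
theorem theta_le (z : ℕ) : ∑ p ∈ pr z, Real.log p ≤ 2 * z := by
  have h1 := Chebyshev.theta_le_log4_mul_x (x := (z : ℝ)) (by positivity)
  rw [Chebyshev.theta_eq_sum_Icc] at h1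
  have h2 : (pr z) = (Finset.Icc 0 ⌊(z : ℝ)⌋₊).filter Nat.Prime := by
    ext p
    simp [mem_pr]
  rw [h2]
  have h3 : Real.log 4 ≤ 2 := by
    have : Real.log 4 = 2 * Real.log 2 := by
      rw [show (4 : ℝ) = 2 ^ 2 by norm_num, Real.log_pow]; norm_num
    rw [this]
    have := Real.log_two_lt_d9
    linarith
  have h4 : (0 : ℝ) ≤ z := by positivity
  nlinarith

end Pool.Agent.MP_5082c5_lc
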